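import Pool.Agent.LLog.Defs

open Finset Module

namespace Pool.Agent.LLog

variable {A : Type} [AddCommGroup A] [Fintype A] {γ b : A → ℝ} {y η X : ℝ}

private theorem A0_flip (G : A → A → ℝ) :
    ∑ s, ∑ z, G s z = ∑ s, ∑ z, G (s + z) (-z) := by
  rw [← Fintype.sum_prod_type' (f := fun s z => G s z),
    ← Fintype.sum_prod_type' (f := fun s z => G (s + z) (-z))]
  let e : A × A ≃ A × A :=
    { toFun := fun p => (p.1 + p.2, -p.2)
      invFun := fun p => (p.1 + p.2, -p.2)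
      left_inv := fun p => by simp
      right_inv := fun p => by simp }
  exact (Equiv.sum_comp e (fun p : A × A => G p.1 p.2)).symm

theorem sum_cv_symm (gev : ∀ z, γ (-z) = γ z) (f g : A → ℝ) :
    ∑ s, f s * cv γ g s = ∑ s, cv γ f s * g s := by
  have h1 : ∑ s, f s * cv γ g s = ∑ s, ∑ z, f s * (γ z * g (s + z)) := by
    refine Finset.sum_congr rfl fun s _ => ?_
    rw [cv, Finset.mul_sum]
  have h2 : ∑ s, cv γ f s * g s = ∑ s, ∑ z, γ z * f (s + z) * g s := by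
    refine Finset.sum_congr rfl fun s _ => ?_
    rw [cv, Finset.sum_mul]
  rw [h1, h2, A0_flip]
  refine Finset.sum_congr rfl fun s _ => Finset.sum_congr rfl fun z _ => ?_
  rw [gev, add_neg_cancel_right]
  ring

theorem Ap.T_pos (h : Ap γ b y η X) : 0 < sT b :=
  Finset.sum_pos (fun s _ => pow_pos (h.bpos s) 2) ⟨0, Finset.mem_univ _⟩

private theorem A0_eta (h : Ap γ b y η X) : 0 < η ^ 8 ∧ η ^ 8 < 1 :=
  ⟨pow_pos h.eta0 8, pow_lt_one₀ h.eta0.le (by linarith [h.eta1]) (by norm_num)⟩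

theorem Ap.cv_pos (h : Ap γ b y η X) (s : A) : 0 < cv γ b s := by
  by_cases hg : ∃ z, 0 < γ z
  · obtain ⟨z, hz⟩ := hg
    exact Finset.sum_pos' (fun w _ => mul_nonneg (h.gnn w) (h.bpos _).le)
      ⟨z, Finset.mem_univ _, mul_pos hz (h.bpos _)⟩
  · exfalso
    push Not at hg
    have h0 : ∀ z, γ z = 0 := fun z => le_antisymm (hg z) (h.gnn z)
    have hcv : ∀ s, cv γ b s = 0 := fun s =>
      Finset.sum_eq_zero fun z _ => by rw [h0, zero_mul]
    have h1 := h.h1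
    have h2 : ∑ s, (cv γ b s - y * b s) ^ 2 = y ^ 2 * sT b := by
      rw [sT, Finset.mul_sum]
      refine Finset.sum_congr rfl fun s _ => ?_
      rw [hcv]
      ring
    rw [h2] at h1
    obtain ⟨e1, e2⟩ := A0_eta h
    have hT := h.T_pos
    have hy : 0 < y ^ 2 := pow_pos h.ypos 2
    have h3 : η ^ 16 < 1 := by
      have : η ^ 16 = η ^ 8 * η ^ 8 := by ring
      rw [this]
      nlinarith
    have h4 : 0 < y ^ 2 * sT b := mul_pos hy hT
    nlinarith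

/-- Cauchy-Schwarz for the error term -/
private theorem A0_cs (h : Ap γ b y η X) :
    ∃ r t u : ℝ, 0 ≤ r ∧ 0 ≤ t ∧ r ≤ η ^ 8 * (y * t) ∧ sT b = t ^ 2 ∧ |u| ≤ r * t ∧
      sZ1 γ b = y * t ^ 2 + u ∧ sZ2 γ b = y ^ 2 * t ^ 2 + 2 * y * u + r ^ 2 := by
  set e : A → ℝ := fun s => cv γ b s - y * b s with he
  have hT := h.T_pos
  have hE : 0 ≤ ∑ s, e s ^ 2 := Finset.sum_nonneg fun s _ => sq_nonneg _
  refine ⟨Real.sqrt (∑ s, e s ^ 2), Real.sqrt (sT b), ∑ s, e s * b s, Real.sqrt_nonneg _,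
    Real.sqrt_nonneg _, ?_, ?_, ?_, ?_, ?_⟩
  · have h1 : ∑ s, e s ^ 2 ≤ (η ^ 8 * (y * Real.sqrt (sT b))) ^ 2 := by
      have h2 : (η ^ 8 * (y * Real.sqrt (sT b))) ^ 2 = η ^ 16 * y ^ 2 * Real.sqrt (sT b) ^ 2 := by ring
      rw [h2, Real.sq_sqrt hT.le]
      exact h.h1
    have h3 : 0 ≤ η ^ 8 * (y * Real.sqrt (sT b)) :=
      mul_nonneg (pow_pos h.eta0 8).le (mul_nonneg h.ypos.le (Real.sqrt_nonneg _))
    calc Real.sqrt (∑ s, e s ^ 2) ≤ Real.sqrt ((η ^ 8 * (y * Real.sqrt (sT b))) ^ 2) :=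
          Real.sqrt_le_sqrt h1
      _ = _ := Real.sqrt_sq h3
  · rw [Real.sq_sqrt hT.le]
  · have h1 : (∑ s, e s * b s) ^ 2 ≤ (Real.sqrt (∑ s, e s ^ 2) * Real.sqrt (sT b)) ^ 2 := by
      rw [mul_pow, Real.sq_sqrt hE, Real.sq_sqrt hT.le]
      exact Finset.sum_mul_sq_le_sq_mul_sq _ _ _
    exact abs_le_of_sq_le_sq h1 (mul_nonneg (Real.sqrt_nonneg _) (Real.sqrt_nonneg _))
  · rw [Real.sq_sqrt hT.le, sZ1, sT, Finset.mul_sum, ← Finset.sum_add_distrib]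
    refine Finset.sum_congr rfl fun s _ => ?_
    simp only [he]
    ring
  · rw [Real.sq_sqrt hT.le, Real.sq_sqrt hE, sZ2, sT, Finset.mul_sum, Finset.mul_sum,
      ← Finset.sum_add_distrib, ← Finset.sum_add_distrib]
    refine Finset.sum_congr rfl fun s _ => ?_
    simp only [he]
    ring

theorem Ap.Z1_lo (h : Ap γ b y η X) : (1 - η ^ 8) * (y * sT b) ≤ sZ1 γ b := by
  obtain ⟨r, t, u, hr, ht, hrt, hT, hu, hZ1, -⟩ := A0_cs h
  have h1 := (abs_le.mp hu).1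
  have h2 : r * t ≤ η ^ 8 * (y * t) * t := mul_le_mul_of_nonneg_right hrt ht
  rw [hT, hZ1]
  nlinarith

theorem Ap.Z1_hi (h : Ap γ b y η X) : sZ1 γ b ≤ (1 + η ^ 8) * (y * sT b) := by
  obtain ⟨r, t, u, hr, ht, hrt, hT, hu, hZ1, -⟩ := A0_cs h
  have h1 := (abs_le.mp hu).2
  have h2 : r * t ≤ η ^ 8 * (y * t) * t := mul_le_mul_of_nonneg_right hrt ht
  rw [hT, hZ1]
  nlinarith

theorem Ap.Z2_lo (h : Ap γ b y η X) : ((1 - η ^ 8) * y) ^ 2 * sT b ≤ sZ2 γ b := by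
  obtain ⟨r, t, u, hr, ht, hrt, hT, hu, -, hZ2⟩ := A0_cs h
  obtain ⟨e1, e2⟩ := A0_eta h
  have h1 := (abs_le.mp hu).1
  have hy := h.ypos
  have h3 : 0 ≤ (1 - η ^ 8) * (y * t) := mul_nonneg (by linarith) (mul_nonneg hy.le ht)
  have h4 : (1 - η ^ 8) * (y * t) ≤ y * t - r := by linarith
  have h5 : ((1 - η ^ 8) * (y * t)) ^ 2 ≤ (y * t - r) ^ 2 := pow_le_pow_left₀ h3 h4 2
  have h6 : 2 * y * (-(r * t)) ≤ 2 * y * u := mul_le_mul_of_nonneg_left h1 (by linarith)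
  rw [hT, hZ2]
  nlinarith

theorem Ap.Z2_hi (h : Ap γ b y η X) : sZ2 γ b ≤ ((1 + η ^ 8) * y) ^ 2 * sT b := by
  obtain ⟨r, t, u, hr, ht, hrt, hT, hu, -, hZ2⟩ := A0_cs h
  obtain ⟨e1, e2⟩ := A0_eta h
  have h1 := (abs_le.mp hu).2
  have hy := h.ypos
  have h3 : 0 ≤ y * t + r := add_nonneg (mul_nonneg hy.le ht) hr
  have h4 : y * t + r ≤ (1 + η ^ 8) * (y * t) := by linarith
  have h5 : (y * t + r) ^ 2 ≤ ((1 + η ^ 8) * (y * t)) ^ 2 := pow_le_pow_left₀ h3 h4 2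
  have h6 : 2 * y * u ≤ 2 * y * (r * t) := mul_le_mul_of_nonneg_left h1 (by linarith)
  rw [hT, hZ2]
  nlinarith

theorem Ap.Z1_pos (h : Ap γ b y η X) : 0 < sZ1 γ b := by
  obtain ⟨e1, e2⟩ := A0_eta h
  exact lt_of_lt_of_le (mul_pos (by linarith) (mul_pos h.ypos h.T_pos)) h.Z1_lo

theorem Ap.Z2_pos (h : Ap γ b y η X) : 0 < sZ2 γ b := by
  obtain ⟨e1, e2⟩ := A0_eta h
  exact lt_of_lt_of_le (mul_pos (pow_pos (mul_pos (by linarith) h.ypos) 2) h.T_pos) h.Z2_lo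

theorem Ap.kr_nonneg (h : Ap γ b y η X) (s z : A) : 0 ≤ kr γ b s z :=
  div_nonneg (mul_nonneg (h.gnn z) (h.bpos _).le) (h.cv_pos s).le

theorem Ap.sum_kr (h : Ap γ b y η X) (s : A) : ∑ z, kr γ b s z = 1 := by
  have h1 : ∑ z, kr γ b s z = (∑ z, γ z * b (s + z)) / cv γ b s := by
    rw [Finset.sum_div]
    rfl
  rw [h1]
  exact div_self (h.cv_pos s).ne'

theorem Ap.lam_nonneg (h : Ap γ b y η X) (s : A) : 0 ≤ lam γ b s :=
  div_nonneg (mul_nonneg (h.bpos s).le (h.cv_pos s).le) h.Z1_pos.le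

theorem Ap.sum_lam (h : Ap γ b y η X) : ∑ s, lam γ b s = 1 := by
  have h1 : ∑ s, lam γ b s = (∑ s, cv γ b s * b s) / sZ1 γ b := by
    rw [Finset.sum_div]
    refine Finset.sum_congr rfl fun s _ => ?_
    rw [lam, mul_comm (b s)]
  rw [h1]
  exact div_self h.Z1_pos.ne'

/-- Reversibility. -/
theorem edge_symm (gev : ∀ z, γ (-z) = γ z) (f : A → A → ℝ) :
    ∑ s, ∑ z, b s * γ z * b (s + z) * f s (s + z) =
      ∑ s, ∑ z, b s * γ z * b (s + z) * f (s + z) s := by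
  rw [A0_flip]
  refine Finset.sum_congr rfl fun s _ => Finset.sum_congr rfl fun z _ => ?_
  rw [gev, add_neg_cancel_right]
  ring

theorem Ap.lam_kr (h : Ap γ b y η X) (f : A → A → ℝ) :
    ∑ s, lam γ b s * ∑ z, kr γ b s z * f s z =
      (∑ s, ∑ z, b s * γ z * b (s + z) * f s z) / sZ1 γ b := by
  rw [Finset.sum_div]
  refine Finset.sum_congr rfl fun s _ => ?_
  rw [Finset.mul_sum, Finset.sum_div]
  refine Finset.sum_congr rfl fun z _ => ?_
  have h1 := (h.cv_pos s).ne'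
  have h2 := h.Z1_pos.ne'
  rw [lam, kr]
  field_simp

/-- Stationarity. -/
theorem Ap.lam_step (h : Ap γ b y η X) (f : A → ℝ) :
    ∑ s, lam γ b s * ∑ z, kr γ b s z * f (s + z) = ∑ s, lam γ b s * f s := by
  rw [h.lam_kr (fun s z => f (s + z)), edge_symm h.gev (fun _ s' => f s'), Finset.sum_div]
  refine Finset.sum_congr rfl fun s _ => ?_
  have h1 : ∑ z, b s * γ z * b (s + z) * f s = b s * cv γ b s * f s := by
    rw [cv, Finset.mul_sum, Finset.sum_mul]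
    refine Finset.sum_congr rfl fun z _ => ?_
    ring
  rw [h1, lam]
  ring

/-- Sums over paths of length two. -/
theorem path_mid (gev : ∀ z, γ (-z) = γ z) (f : A → A → A → ℝ) :
    ∑ s, ∑ z, ∑ w, b s * γ z * γ w * b (s + z + w) * f s (s + z) (s + z + w) =
      ∑ v, ∑ z, ∑ w, b (v + z) * γ z * γ w * b (v + w) * f (v + z) v (v + w) := by
  rw [A0_flip (fun s z => ∑ w, b s * γ z * γ w * b (s + z + w) * f s (s + z) (s + z + w))]
  refine Finset.sum_congr rfl fun s _ => Finset.sum_congr rfl fun z _ =>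
    Finset.sum_congr rfl fun w _ => ?_
  rw [gev, add_neg_cancel_right]

private theorem A0_sq (g : A → ℝ) (v : A) :
    ∑ z, ∑ w, g (v + z) * γ z * γ w * g (v + w) = cv γ g v ^ 2 := by
  rw [sq, cv, Finset.sum_mul_sum]
  refine Finset.sum_congr rfl fun z _ => Finset.sum_congr rfl fun w _ => ?_
  ring

theorem path_total (gev : ∀ z, γ (-z) = γ z) :
    ∑ s, ∑ z, ∑ w, b s * γ z * γ w * b (s + z + w) = sZ2 γ b := by
  have h1 := path_mid (b := b) gev (fun _ _ _ => 1)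
  simp only [mul_one] at h1
  rw [h1, sZ2]
  exact Finset.sum_congr rfl fun v _ => A0_sq b v

/-- The law of an end point of a path of length two. -/
theorem path_end (gev : ∀ z, γ (-z) = γ z) (f : A → ℝ) :
    ∑ s, ∑ z, ∑ w, b s * γ z * γ w * b (s + z + w) * f s = ∑ s, b s * cv γ (cv γ b) s * f s := by
  refine Finset.sum_congr rfl fun s _ => ?_
  rw [cv, Finset.mul_sum, Finset.sum_mul]
  refine Finset.sum_congr rfl fun z _ => ?_
  rw [cv, Finset.mul_sum, Finset.mul_sum, Finset.sum_mul]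
  refine Finset.sum_congr rfl fun w _ => ?_
  ring

/-- The law of the middle point of a path of length two. -/
theorem path_middle (gev : ∀ z, γ (-z) = γ z) (f : A → ℝ) :
    ∑ s, ∑ z, ∑ w, b s * γ z * γ w * b (s + z + w) * f (s + z) = ∑ s, cv γ b s ^ 2 * f s := by
  rw [path_mid gev (fun _ v _ => f v)]
  refine Finset.sum_congr rfl fun v _ => ?_
  rw [← A0_sq, Finset.sum_mul]
  refine Finset.sum_congr rfl fun z _ => ?_
  rw [Finset.sum_mul]

end Pool.Agent.LLog
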