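import Pool.Agent.LLog.A0

open Finset Module

namespace Pool.Agent.LLog

variable {A : Type} [AddCommGroup A] [Fintype A] {γ b : A → ℝ} {y η X : ℝ}

theorem Ap.mx_abs_le (h : Ap γ b y η X) (s z w : A) : |mx b s z w| ≤ 4 * X := by
  have h1 := abs_le.1 (h.log s)
  have h2 := abs_le.1 (h.log (s + z + w))
  have h3 := abs_le.1 (h.log (s + z))
  have h4 := abs_le.1 (h.log (s + w))
  unfold mx lb
  rw [abs_le]
  constructor <;> linarith [h1.1, h1.2, h2.1, h2.2, h3.1, h3.2, h4.1, h4.2]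

private theorem A1_exp (h : Ap γ b y η X) (s z w : A) :
    b s * γ z * γ w * b (s + z + w) * Real.exp (-(mx b s z w)) =
      γ z * γ w * (b (s + z) * b (s + w)) := by
  have e : -(mx b s z w) = lb b (s + z) + lb b (s + w) - (lb b s + lb b (s + z + w)) := by
    unfold mx; ring
  have p1 := h.bpos s
  have p2 := h.bpos (s + z + w)
  rw [e, Real.exp_sub, Real.exp_add, Real.exp_add]
  simp only [lb]
  rw [Real.exp_log (h.bpos _), Real.exp_log (h.bpos _), Real.exp_log (h.bpos _),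
    Real.exp_log (h.bpos _)]
  field_simp

private theorem A1_sum_prod (γ b : A → ℝ) :
    ∑ s, ∑ z, ∑ w, γ z * γ w * (b (s + z) * b (s + w)) = sZ2 γ b := by
  unfold sZ2 cv
  refine Finset.sum_congr rfl fun s _ => ?_
  rw [sq, Finset.sum_mul_sum]
  refine Finset.sum_congr rfl fun z _ => Finset.sum_congr rfl fun w _ => ?_
  ring

private theorem A1_sum_exp (h : Ap γ b y η X) :
    ∑ s, ∑ z, ∑ w, b s * γ z * γ w * b (s + z + w) * Real.exp (-(mx b s z w)) = sZ2 γ b := by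
  rw [← A1_sum_prod]
  exact Finset.sum_congr rfl fun s _ => Finset.sum_congr rfl fun z _ =>
    Finset.sum_congr rfl fun w _ => A1_exp h s z w

private theorem A1_last (gev : ∀ z, γ (-z) = γ z) (f : A → ℝ) :
    ∑ s, ∑ z, ∑ w, b s * γ z * γ w * b (s + z + w) * f (s + z + w) =
      ∑ s, ∑ z, ∑ w, b s * γ z * γ w * b (s + z + w) * f s := by
  have h1 := path_mid (b := b) gev (fun _ _ t => f t)
  have h2 := path_mid (b := b) gev (fun s _ _ => f s)
  rw [h1, h2]
  refine Finset.sum_congr rfl fun v _ => ?_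
  rw [Finset.sum_comm]
  refine Finset.sum_congr rfl fun z _ => Finset.sum_congr rfl fun w _ => ?_
  ring

private theorem A1_swap (f : A → ℝ) :
    ∑ s, ∑ z, ∑ w, b s * γ z * γ w * b (s + z + w) * f (s + w) =
      ∑ s, ∑ z, ∑ w, b s * γ z * γ w * b (s + z + w) * f (s + z) := by
  refine Finset.sum_congr rfl fun s _ => ?_
  rw [Finset.sum_comm]
  refine Finset.sum_congr rfl fun z _ => Finset.sum_congr rfl fun w _ => ?_
  rw [add_right_comm s w z]
  ring

private theorem A1_sum_u (h : Ap γ b y η X) :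
    ∑ s, ∑ z, ∑ w, b s * γ z * γ w * b (s + z + w) * mx b s z w =
      2 * ∑ s, (b s * cv γ (cv γ b) s - cv γ b s ^ 2) * lb b s := by
  have e1 : ∀ s z w : A, b s * γ z * γ w * b (s + z + w) * mx b s z w =
      b s * γ z * γ w * b (s + z + w) * lb b s +
      b s * γ z * γ w * b (s + z + w) * lb b (s + z + w) -
      b s * γ z * γ w * b (s + z + w) * lb b (s + z) -
      b s * γ z * γ w * b (s + z + w) * lb b (s + w) := by
    intro s z w
    unfold mx
    ring
  simp only [e1, Finset.sum_sub_distrib, Finset.sum_add_distrib]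
  rw [A1_last h.gev, A1_swap, path_end h.gev, path_middle h.gev, Finset.mul_sum]
  rw [← Finset.sum_add_distrib, ← Finset.sum_sub_distrib, ← Finset.sum_sub_distrib]
  refine Finset.sum_congr rfl fun s _ => ?_
  ring

private theorem A1_cs {ι : Type} (s : Finset ι) (f g : ι → ℝ) {C D : ℝ}
    (hC : 0 ≤ C) (hD : 0 ≤ D) (h1 : ∑ i ∈ s, f i ^ 2 ≤ C ^ 2) (h2 : ∑ i ∈ s, g i ^ 2 ≤ D ^ 2) :
    ∑ i ∈ s, f i * |g i| ≤ C * D := by
  have h3 := Finset.sum_mul_sq_le_sq_mul_sq s f (fun i => |g i|)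
  simp only [sq_abs] at h3
  have h4 : (∑ i ∈ s, f i * |g i|) ^ 2 ≤ (C * D) ^ 2 := by
    rw [mul_pow]
    refine h3.trans ?_
    exact mul_le_mul h1 h2 (Finset.sum_nonneg fun i _ => sq_nonneg _) (sq_nonneg _)
  exact abs_le_of_sq_le_sq' h4 (by positivity) |>.2

private theorem A1_eta (h : Ap γ b y η X) : η ^ 8 ≤ 1 / 256 := by
  have := pow_le_pow_left₀ h.eta0.le h.eta1 8
  norm_num at this ⊢
  exact this

private theorem A1_diff (h : Ap γ b y η X) :
    ∑ s, |b s * cv γ (cv γ b) s - cv γ b s ^ 2| ≤ 3 * η ^ 8 * sZ2 γ b := by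
  have hy := h.ypos
  have hη := h.eta0
  have he := A1_eta h
  have hT := h.T_pos
  have hZ := h.Z2_pos
  have hlo := h.Z2_lo
  set ε := η ^ 8 with hε
  have hε0 : 0 < ε := by positivity
  have e16 : η ^ 16 = ε ^ 2 := by rw [hε]; ring
  set T := sT b with hTd
  set Z := sZ2 γ b with hZd
  -- first part
  have hsT : 0 ≤ √T := Real.sqrt_nonneg _
  have hsT2 : √T ^ 2 = T := Real.sq_sqrt hT.le
  have hsZ : 0 ≤ √Z := Real.sqrt_nonneg _
  have hsZ2 : √Z ^ 2 = Z := Real.sq_sqrt hZ.le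
  have k1 : ∑ s, b s * |cv γ (cv γ b) s - y * cv γ b s| ≤ √T * (ε * y ^ 2 * √T) := by
    apply A1_cs _ _ _ hsT (by positivity)
    · rw [hsT2, hTd]; rfl
    · rw [mul_pow, hsT2]
      have := h.h2
      rw [e16] at this
      refine this.trans (le_of_eq ?_)
      ring
  have k2 : ∑ s, cv γ b s * |cv γ b s - y * b s| ≤ √Z * (ε * y * √T) := by
    apply A1_cs _ _ _ hsZ (by positivity)
    · rw [hsZ2, hZd]; rfl
    · rw [mul_pow, hsT2]
      have := h.h1
      rw [e16] at this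
      refine this.trans (le_of_eq ?_)
      ring
  have k3 : (1 - ε) * (y * √T) ≤ √Z := by
    apply Real.le_sqrt_of_sq_le
    rw [mul_pow, mul_pow, hsT2, ← mul_assoc, ← mul_pow]
    exact hlo
  have k4 : y * √T ≤ (1 + 1 / 200) * √Z := by
    have : 0 ≤ y * √T := by positivity
    nlinarith
  have k5 : √T * (ε * y ^ 2 * √T) ≤ ε * ((1 + 1 / 200) ^ 2 * Z) := by
    have e1 : √T * (ε * y ^ 2 * √T) = ε * (y * √T) ^ 2 := by ring
    rw [e1, ← hsZ2, ← mul_pow]
    have : (y * √T) ^ 2 ≤ ((1 + 1 / 200) * √Z) ^ 2 := pow_le_pow_left₀ (by positivity) k4 2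
    exact mul_le_mul_of_nonneg_left this hε0.le
  have k6 : √Z * (ε * y * √T) ≤ ε * ((1 + 1 / 200) * Z) := by
    have e1 : √Z * (ε * y * √T) = ε * (√Z * (y * √T)) := by ring
    rw [e1]
    have : √Z * (y * √T) ≤ √Z * ((1 + 1 / 200) * √Z) := mul_le_mul_of_nonneg_left k4 hsZ
    have e2 : √Z * ((1 + 1 / 200) * √Z) = (1 + 1 / 200) * Z := by
      rw [show √Z * ((1 + 1 / 200) * √Z) = (1 + 1 / 200) * √Z ^ 2 by ring, hsZ2]
    rw [e2] at this
    exact mul_le_mul_of_nonneg_left this hε0.le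
  have k7 : ∑ s, |b s * cv γ (cv γ b) s - cv γ b s ^ 2| ≤
      ∑ s, b s * |cv γ (cv γ b) s - y * cv γ b s| + ∑ s, cv γ b s * |cv γ b s - y * b s| := by
    rw [← Finset.sum_add_distrib]
    refine Finset.sum_le_sum fun s _ => ?_
    have e1 : b s * cv γ (cv γ b) s - cv γ b s ^ 2 =
        b s * (cv γ (cv γ b) s - y * cv γ b s) - cv γ b s * (cv γ b s - y * b s) := by ring
    rw [e1]
    refine (abs_sub _ _).trans ?_
    rw [abs_mul, abs_mul, abs_of_pos (h.bpos s), abs_of_pos (h.cv_pos s)]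
  have hεZ : 0 < ε * Z := by positivity
  nlinarith

/-- The entropy inequality. -/
theorem Ap.kl (h : Ap γ b y η X) :
    ∑ s, ∑ z, ∑ w, b s * γ z * γ w * b (s + z + w) *
      (Real.exp (-(mx b s z w)) - 1 + mx b s z w) ≤ 6 * η ^ 8 * X * sZ2 γ b := by
  have e1 : ∀ s z w : A, b s * γ z * γ w * b (s + z + w) *
      (Real.exp (-(mx b s z w)) - 1 + mx b s z w) =
      b s * γ z * γ w * b (s + z + w) * Real.exp (-(mx b s z w)) -
      b s * γ z * γ w * b (s + z + w) +
      b s * γ z * γ w * b (s + z + w) * mx b s z w := by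
    intro s z w
    ring
  simp only [e1, Finset.sum_sub_distrib, Finset.sum_add_distrib]
  rw [A1_sum_exp h, path_total h.gev, sub_self, zero_add, A1_sum_u h]
  have k1 : ∑ s, (b s * cv γ (cv γ b) s - cv γ b s ^ 2) * lb b s ≤
      ∑ s, |b s * cv γ (cv γ b) s - cv γ b s ^ 2| * X := by
    refine Finset.sum_le_sum fun s _ => ?_
    refine (le_abs_self _).trans ?_
    rw [abs_mul]
    exact mul_le_mul_of_nonneg_left (h.log s) (abs_nonneg _)
  rw [← Finset.sum_mul] at k1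
  have k2 := A1_diff h
  have hX : 0 < X := by linarith [h.X1]
  have k3 := mul_le_mul_of_nonneg_right k2 hX.le
  nlinarith

private theorem A1_ineq {u X : ℝ} (hX : 1 ≤ X) (hu : |u| ≤ 4 * X) :
    u ^ 2 ≤ 10 * X * (Real.exp (-u) - 1 + u) := by
  obtain ⟨h1, h2⟩ := abs_le.1 hu
  by_cases h : u ≤ 2
  · have k1 : 1 - u / 2 ≤ Real.exp (-(u / 2)) := by
      have := Real.add_one_le_exp (-(u / 2))
      linarith
    have k2 : (1 - u / 2) ^ 2 ≤ Real.exp (-(u / 2)) ^ 2 :=
      pow_le_pow_left₀ (by linarith) k1 2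
    have k3 : Real.exp (-(u / 2)) ^ 2 = Real.exp (-u) := by
      rw [← Real.exp_nat_mul]
      congr 1
      push_cast
      ring
    rw [k3] at k2
    have k4 : u ^ 2 / 4 ≤ Real.exp (-u) - 1 + u := by nlinarith
    have k5 : 0 ≤ Real.exp (-u) - 1 + u := le_trans (by positivity) k4
    nlinarith
  · have k1 := Real.exp_pos (-u)
    rw [not_le] at h
    have k2 : u / 2 ≤ Real.exp (-u) - 1 + u := by linarith
    nlinarith

private theorem A1_mu_nonneg (h : Ap γ b y η X) (s z w : A) :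
    0 ≤ b s * γ z * γ w * b (s + z + w) := by
  have := h.bpos s
  have := h.bpos (s + z + w)
  have := h.gnn z
  have := h.gnn w
  positivity

omit [AddCommGroup A] in
private theorem A1_sum3_le {f g : A → A → A → ℝ} (h : ∀ s z w, f s z w ≤ g s z w) :
    ∑ s, ∑ z, ∑ w, f s z w ≤ ∑ s, ∑ z, ∑ w, g s z w :=
  Finset.sum_le_sum fun s _ => Finset.sum_le_sum fun z _ => Finset.sum_le_sum fun w _ => h s z w

theorem Ap.mx_sq (h : Ap γ b y η X) :
    ∑ s, ∑ z, ∑ w, b s * γ z * γ w * b (s + z + w) * mx b s z w ^ 2 ≤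
      60 * η ^ 8 * X ^ 2 * sZ2 γ b := by
  have hX : 0 < X := by linarith [h.X1]
  have k1 : ∑ s, ∑ z, ∑ w, b s * γ z * γ w * b (s + z + w) * mx b s z w ^ 2 ≤
      ∑ s, ∑ z, ∑ w, (10 * X) * (b s * γ z * γ w * b (s + z + w) *
        (Real.exp (-(mx b s z w)) - 1 + mx b s z w)) := by
    apply A1_sum3_le
    intro s z w
    have := mul_le_mul_of_nonneg_left (A1_ineq h.X1 (h.mx_abs_le s z w)) (A1_mu_nonneg h s z w)
    linarith
  simp only [← Finset.mul_sum] at k1
  have k2 := mul_le_mul_of_nonneg_left h.kl (by positivity : 0 ≤ 10 * X)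
  nlinarith

theorem Ap.mx_abs (h : Ap γ b y η X) :
    ∑ s, ∑ z, ∑ w, b s * γ z * γ w * b (s + z + w) * |mx b s z w| ≤
      8 * η ^ 4 * X * sZ2 γ b := by
  have hX : 0 < X := by linarith [h.X1]
  have hη := h.eta0
  have hZ := h.Z2_pos
  have ht : 0 < 8 * η ^ 4 * X := by positivity
  have k1 : ∑ s, ∑ z, ∑ w, b s * γ z * γ w * b (s + z + w) * |mx b s z w| ≤
      ∑ s, ∑ z, ∑ w, ((4 * η ^ 4 * X) * (b s * γ z * γ w * b (s + z + w)) +
        (1 / (16 * η ^ 4 * X)) * (b s * γ z * γ w * b (s + z + w) * mx b s z w ^ 2)) := by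
    apply A1_sum3_le
    intro s z w
    have e0 : |mx b s z w| ≤ 4 * η ^ 4 * X + 1 / (16 * η ^ 4 * X) * mx b s z w ^ 2 := by
      rw [← sq_abs (mx b s z w)]
      set u := |mx b s z w|
      have e1 : 4 * η ^ 4 * X + 1 / (16 * η ^ 4 * X) * u ^ 2 - u =
          (8 * η ^ 4 * X - u) ^ 2 / (16 * η ^ 4 * X) := by
        field_simp
        ring
      have e2 : 0 ≤ (8 * η ^ 4 * X - u) ^ 2 / (16 * η ^ 4 * X) := by positivity
      linarith
    have := mul_le_mul_of_nonneg_left e0 (A1_mu_nonneg h s z w)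
    linarith
  simp only [Finset.sum_add_distrib, ← Finset.mul_sum] at k1
  rw [path_total h.gev] at k1
  have k2 : 1 / (16 * η ^ 4 * X) *
      ∑ s, ∑ z, ∑ w, b s * γ z * γ w * b (s + z + w) * mx b s z w ^ 2 ≤
      1 / (16 * η ^ 4 * X) * (60 * η ^ 8 * X ^ 2 * sZ2 γ b) :=
    mul_le_mul_of_nonneg_left h.mx_sq (by positivity)
  have e3 : 1 / (16 * η ^ 4 * X) * (60 * η ^ 8 * X ^ 2 * sZ2 γ b) =
      60 / 16 * (η ^ 4 * X * sZ2 γ b) := by
    field_simp
  have : 0 < η ^ 4 * X * sZ2 γ b := by positivity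
  nlinarith

theorem Ap.prod_diff (h : Ap γ b y η X) :
    ∑ s, ∑ z, ∑ w, γ z * γ w * |b s * b (s + z + w) - b (s + z) * b (s + w)| ≤
      16 * η ^ 4 * X * sZ2 γ b := by
  have k1 : ∑ s, ∑ z, ∑ w, γ z * γ w * |b s * b (s + z + w) - b (s + z) * b (s + w)| ≤
      ∑ s, ∑ z, ∑ w, (2 * (b s * γ z * γ w * b (s + z + w) * |mx b s z w|) -
        (b s * γ z * γ w * b (s + z + w) - γ z * γ w * (b (s + z) * b (s + w)))) := by
    apply A1_sum3_le
    intro s z w
    have e1 := A1_exp h s z w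
    have e2 := A1_mu_nonneg h s z w
    have e3 := Real.add_one_le_exp (-(mx b s z w))
    have e4 := le_abs_self (mx b s z w)
    have e5 : 0 ≤ |mx b s z w| := abs_nonneg _
    have g1 := h.gnn z
    have g2 := h.gnn w
    have e6 : b s * γ z * γ w * b (s + z + w) - γ z * γ w * (b (s + z) * b (s + w)) ≤
        b s * γ z * γ w * b (s + z + w) * |mx b s z w| := by
      rw [← e1]
      nlinarith
    have e7 : γ z * γ w * |b s * b (s + z + w) - b (s + z) * b (s + w)| =
        |b s * γ z * γ w * b (s + z + w) - γ z * γ w * (b (s + z) * b (s + w))| := by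
      rw [← abs_of_nonneg (mul_nonneg g1 g2), ← abs_mul, abs_of_nonneg (mul_nonneg g1 g2)]
      congr 1
      ring
    rw [e7]
    rcases abs_cases (b s * γ z * γ w * b (s + z + w) - γ z * γ w * (b (s + z) * b (s + w)))
      with ⟨e8, e9⟩ | ⟨e8, e9⟩
    · rw [e8]; linarith
    · rw [e8]
      have : 0 ≤ b s * γ z * γ w * b (s + z + w) * |mx b s z w| := by positivity
      linarith
  simp only [Finset.sum_sub_distrib, ← Finset.mul_sum] at k1
  have e1 := A1_sum_prod γ b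
  simp only [Finset.mul_sum] at e1 k1
  rw [e1] at k1
  have e2 := path_total (b := b) h.gev
  rw [e2] at k1
  have k2 := h.mx_abs
  simp only [← Finset.mul_sum] at k1 k2
  linarith

end Pool.Agent.LLog
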