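import Pool.Agent.LLog.A1

open Finset Module

namespace Pool.Agent.LLog

variable {A : Type} [AddCommGroup A] [Fintype A] {γ b : A → ℝ} {y η X : ℝ}

private theorem A2_D_le (h : Ap γ b y η X) (s t : A) : |lb b t - lb b s| ≤ 2 * X := by
  have h1 := abs_le.1 (h.log s)
  have h2 := abs_le.1 (h.log t)
  unfold lb
  rw [abs_le]
  constructor <;> linarith [h1.1, h1.2, h2.1, h2.2]

omit [AddCommGroup A] in
private theorem A2_sum3_le {f g : A → A → A → ℝ} (h : ∀ s z w, f s z w ≤ g s z w) :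
    ∑ s, ∑ z, ∑ w, f s z w ≤ ∑ s, ∑ z, ∑ w, g s z w :=
  Finset.sum_le_sum fun s _ => Finset.sum_le_sum fun z _ => Finset.sum_le_sum fun w _ => h s z w

private theorem A2_path (h : Ap γ b y η X) :
    ∑ s, ∑ z, ∑ w, b s * γ z * γ w * b (s + z + w) *
      ((lb b (s + z) - lb b s) * (lb b (s + z + w) - lb b (s + z))) = -∑ s, hm γ b s ^ 2 := by
  have h1 := path_mid (b := b) h.gev (fun s v t => (lb b v - lb b s) * (lb b t - lb b v))
  rw [h1, ← Finset.sum_neg_distrib]
  refine Finset.sum_congr rfl fun s _ => ?_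
  unfold hm
  rw [sq, Finset.sum_mul_sum, ← Finset.sum_neg_distrib]
  refine Finset.sum_congr rfl fun z _ => ?_
  rw [← Finset.sum_neg_distrib]
  refine Finset.sum_congr rfl fun w _ => ?_
  ring

private theorem A2_hm (γ b : A → ℝ) :
    ∑ s, ∑ z, ∑ w, γ z * γ w * (b (s + z) * b (s + w)) *
      ((lb b (s + z) - lb b s) * (lb b (s + w) - lb b s)) = ∑ s, hm γ b s ^ 2 := by
  refine Finset.sum_congr rfl fun s _ => ?_
  unfold hm
  rw [sq, Finset.sum_mul_sum]
  refine Finset.sum_congr rfl fun z _ => Finset.sum_congr rfl fun w _ => ?_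
  ring

/-- `log b` is nearly harmonic. -/
theorem Ap.harm (h : Ap γ b y η X) :
    ∑ s, hm γ b s ^ 2 ≤ 40 * X ^ 3 * η ^ 4 * sZ2 γ b := by
  have hX := h.X1
  have k1 : ∑ s, ∑ z, ∑ w, (γ z * γ w * (b (s + z) * b (s + w)) *
        ((lb b (s + z) - lb b s) * (lb b (s + w) - lb b s)) -
        4 * X ^ 2 * (γ z * γ w * |b s * b (s + z + w) - b (s + z) * b (s + w)|) -
        2 * X * (b s * γ z * γ w * b (s + z + w) * |mx b s z w|)) ≤
      ∑ s, ∑ z, ∑ w, b s * γ z * γ w * b (s + z + w) *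
        ((lb b (s + z) - lb b s) * (lb b (s + z + w) - lb b (s + z))) := by
    apply A2_sum3_le
    intro s z w
    have g1 := h.gnn z
    have g2 := h.gnn w
    have p1 := (h.bpos s).le
    have p2 := (h.bpos (s + z + w)).le
    have d1 := A2_D_le h s (s + z)
    have d2 := A2_D_le h s (s + w)
    have e1 : b s * γ z * γ w * b (s + z + w) *
        ((lb b (s + z) - lb b s) * (lb b (s + z + w) - lb b (s + z))) =
        γ z * γ w * (b (s + z) * b (s + w)) *
          ((lb b (s + z) - lb b s) * (lb b (s + w) - lb b s)) +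
        γ z * γ w * ((b s * b (s + z + w) - b (s + z) * b (s + w)) *
          ((lb b (s + z) - lb b s) * (lb b (s + w) - lb b s))) +
        b s * γ z * γ w * b (s + z + w) * ((lb b (s + z) - lb b s) * mx b s z w) := by
      unfold mx
      ring
    rw [e1]
    have e2 : |(b s * b (s + z + w) - b (s + z) * b (s + w)) *
        ((lb b (s + z) - lb b s) * (lb b (s + w) - lb b s))| ≤
        |b s * b (s + z + w) - b (s + z) * b (s + w)| * (2 * X * (2 * X)) := by
      rw [abs_mul, abs_mul]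
      exact mul_le_mul_of_nonneg_left (mul_le_mul d1 d2 (abs_nonneg _) (by linarith))
        (abs_nonneg _)
    have e3 : |(lb b (s + z) - lb b s) * mx b s z w| ≤ 2 * X * |mx b s z w| := by
      rw [abs_mul]
      exact mul_le_mul_of_nonneg_right d1 (abs_nonneg _)
    have e4 := mul_le_mul_of_nonneg_left (neg_le_of_abs_le e2) (mul_nonneg g1 g2)
    have e5 := mul_le_mul_of_nonneg_left (neg_le_of_abs_le e3)
      (by positivity : 0 ≤ b s * γ z * γ w * b (s + z + w))
    linarith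
  simp only [Finset.sum_sub_distrib] at k1
  rw [A2_path h, A2_hm] at k1
  have k2 : ∑ s, ∑ z, ∑ w, 4 * X ^ 2 *
      (γ z * γ w * |b s * b (s + z + w) - b (s + z) * b (s + w)|) ≤
      4 * X ^ 2 * (16 * η ^ 4 * X * sZ2 γ b) := by
    have := mul_le_mul_of_nonneg_left h.prod_diff (by positivity : 0 ≤ 4 * X ^ 2)
    simp only [Finset.mul_sum] at this ⊢
    exact this
  have k3 : ∑ s, ∑ z, ∑ w, 2 * X * (b s * γ z * γ w * b (s + z + w) * |mx b s z w|) ≤
      2 * X * (8 * η ^ 4 * X * sZ2 γ b) := by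
    have := mul_le_mul_of_nonneg_left h.mx_abs (by positivity : 0 ≤ 2 * X)
    simp only [Finset.mul_sum] at this ⊢
    exact this
  have hZ := h.Z2_pos
  have hη := h.eta0
  have k4 : X ^ 2 * (η ^ 4 * sZ2 γ b) ≤ X ^ 3 * (η ^ 4 * sZ2 γ b) :=
    mul_le_mul_of_nonneg_right (pow_le_pow_right₀ hX (by norm_num)) (by positivity)
  nlinarith

/-- `log b` is nearly constant along steps. -/
theorem Ap.grad (h : Ap γ b y η X) :
    ∑ s, ∑ z, b s * γ z * b (s + z) * (lb b (s + z) - lb b s) ^ 2 ≤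
      16 * X ^ 3 * η ^ 2 * sZ1 γ b := by
  have hX := h.X1
  have hη := h.eta0
  have hy := h.ypos
  have hT := h.T_pos
  have he : η ^ 8 ≤ 1 / 256 := by
    have := pow_le_pow_left₀ h.eta0.le h.eta1 8
    norm_num at this ⊢
    exact this
  -- the identity
  have e1 : ∑ s, ∑ z, b s * γ z * b (s + z) * (lb b (s + z) - lb b s) ^ 2 =
      -2 * ∑ s, b s * (lb b s * hm γ b s) := by
    have s1 := edge_symm (b := b) h.gev (fun _ t => lb b t ^ 2)
    have s2 : ∑ s, ∑ z, b s * γ z * b (s + z) * (lb b (s + z) - lb b s) ^ 2 =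
        ∑ s, ∑ z, b s * γ z * b (s + z) * lb b (s + z) ^ 2 +
        ∑ s, ∑ z, (b s * γ z * b (s + z) * (lb b s ^ 2 - 2 * lb b s * lb b (s + z))) := by
      rw [← Finset.sum_add_distrib]
      refine Finset.sum_congr rfl fun s _ => ?_
      rw [← Finset.sum_add_distrib]
      refine Finset.sum_congr rfl fun z _ => ?_
      ring
    rw [s2, s1, ← Finset.sum_add_distrib, Finset.mul_sum]
    refine Finset.sum_congr rfl fun s _ => ?_
    rw [← Finset.sum_add_distrib]
    unfold hm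
    rw [Finset.mul_sum, Finset.mul_sum, Finset.mul_sum]
    refine Finset.sum_congr rfl fun z _ => ?_
    ring
  have e2 : -2 * ∑ s, b s * (lb b s * hm γ b s) ≤ 2 * X * ∑ s, b s * |hm γ b s| := by
    rw [Finset.mul_sum, Finset.mul_sum]
    refine Finset.sum_le_sum fun s _ => ?_
    have d1 : -(lb b s * hm γ b s) ≤ X * |hm γ b s| := by
      refine (neg_le_abs _).trans ?_
      rw [abs_mul]
      exact mul_le_mul_of_nonneg_right (h.log s) (abs_nonneg _)
    have := mul_le_mul_of_nonneg_left d1 (h.bpos s).le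
    linarith
  have e3 : (∑ s, b s * |hm γ b s|) ^ 2 ≤
      (7 * X ^ 2 * η ^ 2 * ((1 + η ^ 8) * (y * sT b))) ^ 2 := by
    refine (Finset.sum_mul_sq_le_sq_mul_sq _ _ _).trans ?_
    simp only [sq_abs]
    have d1 : ∑ s, hm γ b s ^ 2 ≤ 40 * X ^ 3 * η ^ 4 * (((1 + η ^ 8) * y) ^ 2 * sT b) :=
      h.harm.trans (mul_le_mul_of_nonneg_left h.Z2_hi (by positivity))
    have d2 : (∑ s, b s ^ 2) * ∑ s, hm γ b s ^ 2 ≤
        sT b * (40 * X ^ 3 * η ^ 4 * (((1 + η ^ 8) * y) ^ 2 * sT b)) :=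
      mul_le_mul_of_nonneg_left d1 hT.le
    refine d2.trans ?_
    have d3 : 40 * X ^ 3 ≤ 49 * X ^ 4 := by
      have : X ^ 3 ≤ X ^ 4 := pow_le_pow_right₀ hX (by norm_num)
      have : 0 ≤ X ^ 4 := by positivity
      linarith
    have d4 : sT b * (40 * X ^ 3 * η ^ 4 * (((1 + η ^ 8) * y) ^ 2 * sT b)) =
        40 * X ^ 3 * (η ^ 4 * ((1 + η ^ 8) * (y * sT b)) ^ 2) := by ring
    have d5 : (7 * X ^ 2 * η ^ 2 * ((1 + η ^ 8) * (y * sT b))) ^ 2 =
        49 * X ^ 4 * (η ^ 4 * ((1 + η ^ 8) * (y * sT b)) ^ 2) := by ring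
    rw [d4, d5]
    exact mul_le_mul_of_nonneg_right d3 (by positivity)
  have e4 : ∑ s, b s * |hm γ b s| ≤ 7 * X ^ 2 * η ^ 2 * ((1 + η ^ 8) * (y * sT b)) :=
    (abs_le_of_sq_le_sq' e3 (by positivity)).2
  have e5 := mul_le_mul_of_nonneg_left e4 (by positivity : 0 ≤ 2 * X)
  have e6 := h.Z1_lo
  have e7 : 14 * ((1 + η ^ 8) * (y * sT b)) ≤ 16 * sZ1 γ b := by
    have : 0 < y * sT b := by positivity
    nlinarith
  have e8 := mul_le_mul_of_nonneg_left e7 (by positivity : 0 ≤ X ^ 3 * η ^ 2)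
  rw [e1]
  nlinarith

end Pool.Agent.LLog
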