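import Pool.Agent.LLog.A1

open Finset Module

namespace Pool.Agent.LLog

variable {A : Type} [AddCommGroup A] [Fintype A] {γ b : A → ℝ} {y η X : ℝ}

private lemma A3_eta8 (h : Ap γ b y η X) : η ^ 8 ≤ 1 / 256 := by
  have := pow_le_pow_left₀ h.eta0.le h.eta1 8
  norm_num at this ⊢
  linarith

private lemma A3_Q_le (h : Ap γ b y η X) :
    ∑ s, cv γ b s * |cv γ b s - y * b s| ≤ (1 + η ^ 8) * η ^ 8 * (y ^ 2 * sT b) := by
  have hT := h.T_pos
  have hy := h.ypos
  have he := h.eta0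
  rw [← pow_le_pow_iff_left₀ (sum_nonneg fun s _ => mul_nonneg (h.cv_pos s).le (abs_nonneg _))
    (by positivity) two_ne_zero]
  calc (∑ s, cv γ b s * |cv γ b s - y * b s|) ^ 2
      ≤ (∑ s, cv γ b s ^ 2) * ∑ s, |cv γ b s - y * b s| ^ 2 := sum_mul_sq_le_sq_mul_sq _ _ _
    _ = sZ2 γ b * ∑ s, (cv γ b s - y * b s) ^ 2 := by simp only [sq_abs, sZ2]
    _ ≤ (((1 + η ^ 8) * y) ^ 2 * sT b) * (η ^ 16 * y ^ 2 * sT b) := by
        apply mul_le_mul h.Z2_hi h.h1 (sum_nonneg fun _ _ => sq_nonneg _) (by positivity)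
    _ = ((1 + η ^ 8) * η ^ 8 * (y ^ 2 * sT b)) ^ 2 := by ring

/-- Comparison of the two weights of the middle point. -/
private lemma A3_mid (h : Ap γ b y η X) :
    ∑ s, cv γ b s ^ 2 * |b s / (sZ1 γ b * cv γ b s) - 1 / sZ2 γ b| ≤ 5 / 2 * η ^ 8 := by
  have hT := h.T_pos
  have hy := h.ypos
  have he := h.eta0
  have h1 := h.Z1_pos
  have h2 := h.Z2_pos
  have h8 := A3_eta8 h
  set Q := ∑ s, cv γ b s * |cv γ b s - y * b s| with hQ
  have hQ0 : 0 ≤ Q := sum_nonneg fun s _ => mul_nonneg (h.cv_pos s).le (abs_nonneg _)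
  have hdiff : |sZ2 γ b - y * sZ1 γ b| ≤ Q := by
    have : sZ2 γ b - y * sZ1 γ b = ∑ s, cv γ b s * (cv γ b s - y * b s) := by
      rw [sZ2, sZ1, mul_sum, ← sum_sub_distrib]
      exact sum_congr rfl fun s _ => by ring
    rw [this]
    refine (abs_sum_le_sum_abs _ _).trans (sum_le_sum fun s _ => ?_)
    rw [abs_mul, abs_of_pos (h.cv_pos s)]
  have hterm : ∀ s, cv γ b s ^ 2 * |b s / (sZ1 γ b * cv γ b s) - 1 / sZ2 γ b|
      ≤ cv γ b s * |cv γ b s - y * b s| / (y * sZ1 γ b)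
        + cv γ b s ^ 2 * (Q / (y * sZ1 γ b * sZ2 γ b)) := by
    intro s
    have ha := h.cv_pos s
    have e1 : b s / (sZ1 γ b * cv γ b s) - 1 / sZ2 γ b
        = -(cv γ b s - y * b s) / (cv γ b s * (y * sZ1 γ b))
          + (sZ2 γ b - y * sZ1 γ b) / (y * sZ1 γ b * sZ2 γ b) := by
      field_simp
      ring
    have e2 : |b s / (sZ1 γ b * cv γ b s) - 1 / sZ2 γ b|
        ≤ |cv γ b s - y * b s| / (cv γ b s * (y * sZ1 γ b))
          + Q / (y * sZ1 γ b * sZ2 γ b) := by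
      rw [e1]
      refine (abs_add_le _ _).trans (add_le_add ?_ ?_)
      · rw [abs_div, abs_neg, abs_of_pos (a := cv γ b s * (y * sZ1 γ b)) (by positivity)]
      · rw [abs_div, abs_of_pos (a := y * sZ1 γ b * sZ2 γ b) (by positivity)]
        gcongr
    refine (mul_le_mul_of_nonneg_left e2 (sq_nonneg _)).trans (le_of_eq ?_)
    rw [mul_add]
    congr 1
    field_simp
  have hsum : ∑ s, cv γ b s ^ 2 * |b s / (sZ1 γ b * cv γ b s) - 1 / sZ2 γ b|
      ≤ 2 * Q / (y * sZ1 γ b) := by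
    refine (sum_le_sum fun s _ => hterm s).trans (le_of_eq ?_)
    rw [sum_add_distrib, ← sum_div, ← sum_mul, ← hQ]
    have : ∑ s, cv γ b s ^ 2 = sZ2 γ b := rfl
    rw [this]
    field_simp
    ring
  refine hsum.trans ?_
  rw [div_le_iff₀ (by positivity)]
  have hlo := h.Z1_lo
  have hq := A3_Q_le h
  rw [← hQ] at hq
  have hyT : 0 < y ^ 2 * sT b := by positivity
  have he8 : 0 < η ^ 8 := by positivity
  have h3 : y * ((1 - η ^ 8) * (y * sT b)) ≤ y * sZ1 γ b :=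
    mul_le_mul_of_nonneg_left hlo hy.le
  have h4 : 5 / 2 * η ^ 8 * (y * ((1 - η ^ 8) * (y * sT b))) ≤ 5 / 2 * η ^ 8 * (y * sZ1 γ b) :=
    mul_le_mul_of_nonneg_left h3 (by positivity)
  have h5 : 2 * ((1 + η ^ 8) * η ^ 8 * (y ^ 2 * sT b))
      ≤ 5 / 2 * η ^ 8 * (y * ((1 - η ^ 8) * (y * sT b))) := by
    have h6 : 0 ≤ (η ^ 8 * (y ^ 2 * sT b)) * (5 / 2 * (1 - η ^ 8) - 2 * (1 + η ^ 8)) := by
      apply mul_nonneg (by positivity)
      linarith
    nlinarith [h6]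
  linarith

/-- The kernels at the two ends of a typical step nearly agree. -/
theorem Ap.kr_diff (h : Ap γ b y η X) :
    ∑ s, lam γ b s * ∑ z, kr γ b s z * ∑ w, |kr γ b (s + z) w - kr γ b s w| ≤
      21 * X * η ^ 4 := by
  have h1 := h.Z1_pos
  have h2 := h.Z2_pos
  have he := h.eta0
  have h8 := A3_eta8 h
  set f : A → ℝ := fun v => |b v / (sZ1 γ b * cv γ b v) - 1 / sZ2 γ b| with hf
  have hterm : ∀ s z w, lam γ b s * (kr γ b s z * |kr γ b (s + z) w - kr γ b s w|)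
      ≤ b s * γ z * γ w * b (s + z + w) * f (s + z)
        + (γ z * γ w * |b s * b (s + z + w) - b (s + z) * b (s + w)|) / sZ2 γ b
        + (γ z * b (s + z)) * (γ w * b (s + w)) * f s := by
    intro s z w
    have ha := h.cv_pos s
    have ha' := h.cv_pos (s + z)
    have hb := h.bpos
    have hz := h.gnn z
    have hw := h.gnn w
    have e1 : lam γ b s * (kr γ b s z * |kr γ b (s + z) w - kr γ b s w|)
        = |b s * γ z * γ w * b (s + z + w) * (b (s + z) / (sZ1 γ b * cv γ b (s + z)))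
          - (γ z * b (s + z)) * (γ w * b (s + w)) * (b s / (sZ1 γ b * cv γ b s))| := by
      have e2 : 0 ≤ lam γ b s * kr γ b s z := mul_nonneg (h.lam_nonneg s) (h.kr_nonneg s z)
      rw [← mul_assoc, ← abs_of_nonneg e2, ← abs_mul]
      congr 1
      unfold lam kr
      field_simp
    rw [e1]
    have e3 : b s * γ z * γ w * b (s + z + w) * (b (s + z) / (sZ1 γ b * cv γ b (s + z)))
          - (γ z * b (s + z)) * (γ w * b (s + w)) * (b s / (sZ1 γ b * cv γ b s))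
        = b s * γ z * γ w * b (s + z + w)
            * (b (s + z) / (sZ1 γ b * cv γ b (s + z)) - 1 / sZ2 γ b)
          + (γ z * γ w * (b s * b (s + z + w) - b (s + z) * b (s + w))) / sZ2 γ b
          - (γ z * b (s + z)) * (γ w * b (s + w))
            * (b s / (sZ1 γ b * cv γ b s) - 1 / sZ2 γ b) := by
      field_simp
      ring
    rw [e3]
    refine (abs_sub _ _).trans (add_le_add ((abs_add_le _ _).trans (add_le_add ?_ ?_)) ?_)
    · rw [abs_mul, abs_of_nonneg (a := b s * γ z * γ w * b (s + z + w))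
        (mul_nonneg (mul_nonneg (mul_nonneg (hb s).le hz) hw) (hb _).le)]
    · rw [abs_div, abs_of_pos h2, abs_mul, abs_of_nonneg (mul_nonneg hz hw)]
    · rw [abs_mul, abs_of_nonneg (a := (γ z * b (s + z)) * (γ w * b (s + w)))
        (mul_nonneg (mul_nonneg hz (hb _).le) (mul_nonneg hw (hb _).le))]
  have hs1 : ∑ s, ∑ z, ∑ w, b s * γ z * γ w * b (s + z + w) * f (s + z) ≤ 5 / 2 * η ^ 8 := by
    rw [path_middle h.gev f]
    exact A3_mid h
  have hs2 : ∑ s, ∑ z, ∑ w, (γ z * γ w * |b s * b (s + z + w) - b (s + z) * b (s + w)|) / sZ2 γ b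
      ≤ 16 * η ^ 4 * X := by
    simp only [← sum_div]
    rw [div_le_iff₀ h2]
    exact h.prod_diff
  have hs3 : ∑ s, ∑ z, ∑ w, (γ z * b (s + z)) * (γ w * b (s + w)) * f s ≤ 5 / 2 * η ^ 8 := by
    have : ∀ s, ∑ z, ∑ w, (γ z * b (s + z)) * (γ w * b (s + w)) * f s = cv γ b s ^ 2 * f s := by
      intro s
      rw [sq, cv, sum_mul_sum]
      simp only [sum_mul]
    rw [sum_congr rfl fun s _ => this s]
    exact A3_mid h
  have hall : ∑ s, lam γ b s * ∑ z, kr γ b s z * ∑ w, |kr γ b (s + z) w - kr γ b s w|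
      ≤ 5 / 2 * η ^ 8 + 16 * η ^ 4 * X + 5 / 2 * η ^ 8 := by
    simp only [mul_sum]
    refine (sum_le_sum fun s _ => sum_le_sum fun z _ => sum_le_sum fun w _ => hterm s z w).trans ?_
    simp only [sum_add_distrib]
    linarith
  refine hall.trans ?_
  have h4 : η ^ 4 ≤ 1 := pow_le_one₀ he.le (by linarith [h.eta1])
  have h5 : η ^ 8 ≤ η ^ 4 := by
    have : η ^ 8 = η ^ 4 * η ^ 4 := by ring
    rw [this]
    nlinarith [pow_pos he 4]
  have h6 : η ^ 4 ≤ X * η ^ 4 := by nlinarith [pow_pos he 4, h.X1]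
  nlinarith

end Pool.Agent.LLog
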