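import Pool.Agent.LLog.A2
import Pool.Agent.LLog.A3

open Finset Module

namespace Pool.Agent.LLog

variable {A : Type} [AddCommGroup A] [Fintype A] {γ b : A → ℝ} {y η X : ℝ}

theorem pw_nonneg {π : A → ℝ} (hπ : ∀ z, 0 ≤ π z) (n : ℕ) (v : A) : 0 ≤ pw π n v := by
  induction n generalizing v with
  | zero =>
    simp only [pw]
    split_ifs
    · exact zero_le_one
    · exact le_rfl
  | succ n ih =>
    simp only [pw]
    exact Finset.sum_nonneg fun z _ => mul_nonneg (hπ z) (ih _)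

private theorem A4_shift (f : A → ℝ) (z : A) : ∑ v, f (v - z) = ∑ v, f v :=
  Equiv.sum_comp (Equiv.subRight z) f

theorem sum_pw {π : A → ℝ} (hπ1 : ∑ z, π z = 1) (n : ℕ) : ∑ v, pw π n v = 1 := by
  induction n with
  | zero =>
    classical
    simp [pw]
  | succ n ih =>
    simp only [pw]
    rw [Finset.sum_comm]
    have : ∀ z, ∑ v, π z * pw π n (v - z) = π z := by
      intro z
      rw [← Finset.mul_sum, A4_shift (pw π n) z, ih, mul_one]
    rw [Finset.sum_congr rfl fun z _ => this z, hπ1]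

theorem sum_pw_succ (π f : A → ℝ) (n : ℕ) :
    ∑ v, pw π (n + 1) v * f v = ∑ z, π z * ∑ v, pw π n v * f (z + v) := by
  have h1 : ∀ v, pw π (n + 1) v * f v = ∑ z, π z * (pw π n (v - z) * f v) := by
    intro v
    simp only [pw]
    rw [Finset.sum_mul]
    exact Finset.sum_congr rfl fun z _ => by ring
  rw [Finset.sum_congr rfl fun v _ => h1 v, Finset.sum_comm]
  refine Finset.sum_congr rfl fun z _ => ?_
  rw [← Finset.mul_sum]
  congr 1
  have h2 := A4_shift (fun v => pw π n v * f (z + v)) z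
  rw [← h2]
  refine Finset.sum_congr rfl fun v _ => ?_
  rw [add_sub_cancel]

theorem pw_diff {π ρ : A → ℝ} (hπ : ∀ z, 0 ≤ π z) (hπ1 : ∑ z, π z = 1) (hρ : ∀ z, 0 ≤ ρ z)
    (hρ1 : ∑ z, ρ z = 1) (n : ℕ) :
    ∑ v, |pw π n v - pw ρ n v| ≤ n * ∑ z, |π z - ρ z| := by
  induction n with
  | zero =>
    simp [pw]
  | succ n ih =>
    have h1 : ∀ v, |pw π (n + 1) v - pw ρ (n + 1) v| ≤
        (∑ z, π z * |pw π n (v - z) - pw ρ n (v - z)|) +
          ∑ z, |π z - ρ z| * pw ρ n (v - z) := by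
      intro v
      have e : pw π (n + 1) v - pw ρ (n + 1) v =
          ∑ z, (π z * (pw π n (v - z) - pw ρ n (v - z)) + (π z - ρ z) * pw ρ n (v - z)) := by
        simp only [pw]
        rw [← Finset.sum_sub_distrib]
        exact Finset.sum_congr rfl fun z _ => by ring
      rw [e, ← Finset.sum_add_distrib]
      refine (Finset.abs_sum_le_sum_abs _ _).trans (Finset.sum_le_sum fun z _ => ?_)
      refine (abs_add_le _ _).trans ?_
      rw [abs_mul, abs_mul, abs_of_nonneg (hπ z), abs_of_nonneg (pw_nonneg hρ n (v - z))]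
    have h2 : ∑ v, ∑ z, π z * |pw π n (v - z) - pw ρ n (v - z)| =
        ∑ v, |pw π n v - pw ρ n v| := by
      rw [Finset.sum_comm]
      have : ∀ z, ∑ v, π z * |pw π n (v - z) - pw ρ n (v - z)| =
          π z * ∑ v, |pw π n v - pw ρ n v| := by
        intro z
        rw [← Finset.mul_sum, A4_shift (fun v => |pw π n v - pw ρ n v|) z]
      rw [Finset.sum_congr rfl fun z _ => this z, ← Finset.sum_mul, hπ1, one_mul]
    have h3 : ∑ v, ∑ z, |π z - ρ z| * pw ρ n (v - z) = ∑ z, |π z - ρ z| := by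
      rw [Finset.sum_comm]
      refine Finset.sum_congr rfl fun z _ => ?_
      rw [← Finset.mul_sum, A4_shift (pw ρ n) z, sum_pw hρ1, mul_one]
    calc ∑ v, |pw π (n + 1) v - pw ρ (n + 1) v|
        ≤ ∑ v, ((∑ z, π z * |pw π n (v - z) - pw ρ n (v - z)|) +
          ∑ z, |π z - ρ z| * pw ρ n (v - z)) := Finset.sum_le_sum fun v _ => h1 v
      _ = ∑ v, |pw π n v - pw ρ n v| + ∑ z, |π z - ρ z| := by
          rw [Finset.sum_add_distrib, h2, h3]
      _ ≤ n * ∑ z, |π z - ρ z| + ∑ z, |π z - ρ z| := by linarith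
      _ = ((n + 1 : ℕ) : ℝ) * ∑ z, |π z - ρ z| := by push_cast; ring

private theorem A4_lb_diff (h : Ap γ b y η X) (s t : A) : |lb b s - lb b t| ≤ 2 * X := by
  have h1 := h.log s
  have h2 := h.log t
  unfold lb
  rw [abs_le] at h1 h2 ⊢
  constructor <;> linarith [h1.1, h1.2, h2.1, h2.2]

/-- Mean length of a step. -/
private theorem A4_step (h : Ap γ b y η X) :
    ∑ s, lam γ b s * ∑ z, kr γ b s z * |lb b (s + z) - lb b s| ≤ 4 * X ^ 2 * η := by
  have hX := h.X1
  have hη := h.eta0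
  have hc : 0 < 4 * X ^ 2 * η := by positivity
  have h1 : ∀ u : ℝ, |u| ≤ u ^ 2 / (8 * X ^ 2 * η) + 2 * X ^ 2 * η := by
    intro u
    have h2 : 0 ≤ (|u| - 4 * X ^ 2 * η) ^ 2 := sq_nonneg _
    have h3 : |u| ^ 2 = u ^ 2 := sq_abs u
    have h4 : u ^ 2 / (8 * X ^ 2 * η) + 2 * X ^ 2 * η - |u| =
        (|u| - 4 * X ^ 2 * η) ^ 2 / (8 * X ^ 2 * η) := by
      rw [← h3]
      field_simp
      ring
    have h5 : 0 ≤ (|u| - 4 * X ^ 2 * η) ^ 2 / (8 * X ^ 2 * η) := by positivity
    linarith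
  have h2 : ∑ s, lam γ b s * ∑ z, kr γ b s z * (lb b (s + z) - lb b s) ^ 2 ≤
      16 * X ^ 3 * η ^ 2 := by
    rw [h.lam_kr (fun s z => (lb b (s + z) - lb b s) ^ 2), div_le_iff₀ h.Z1_pos]
    exact h.grad
  have h3 : ∑ s, lam γ b s * ∑ z, kr γ b s z * |lb b (s + z) - lb b s| ≤
      ∑ s, lam γ b s * ∑ z, kr γ b s z *
        ((lb b (s + z) - lb b s) ^ 2 / (8 * X ^ 2 * η) + 2 * X ^ 2 * η) := by
    refine Finset.sum_le_sum fun s _ => mul_le_mul_of_nonneg_left ?_ (h.lam_nonneg s)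
    exact Finset.sum_le_sum fun z _ => mul_le_mul_of_nonneg_left (h1 _) (h.kr_nonneg s z)
  have h4 : ∑ s, lam γ b s * ∑ z, kr γ b s z *
        ((lb b (s + z) - lb b s) ^ 2 / (8 * X ^ 2 * η) + 2 * X ^ 2 * η) =
      (∑ s, lam γ b s * ∑ z, kr γ b s z * (lb b (s + z) - lb b s) ^ 2) / (8 * X ^ 2 * η) +
        2 * X ^ 2 * η := by
    have e1 : ∀ s, ∑ z, kr γ b s z *
        ((lb b (s + z) - lb b s) ^ 2 / (8 * X ^ 2 * η) + 2 * X ^ 2 * η) =
        (∑ z, kr γ b s z * (lb b (s + z) - lb b s) ^ 2) / (8 * X ^ 2 * η) + 2 * X ^ 2 * η := by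
      intro s
      have e2 : ∀ z, kr γ b s z *
          ((lb b (s + z) - lb b s) ^ 2 / (8 * X ^ 2 * η) + 2 * X ^ 2 * η) =
          kr γ b s z * (lb b (s + z) - lb b s) ^ 2 / (8 * X ^ 2 * η) +
            kr γ b s z * (2 * X ^ 2 * η) := by
        intro z; ring
      rw [Finset.sum_congr rfl fun z _ => e2 z, Finset.sum_add_distrib, ← Finset.sum_div,
        ← Finset.sum_mul, h.sum_kr s, one_mul]
    have e3 : ∀ s, lam γ b s * ((∑ z, kr γ b s z * (lb b (s + z) - lb b s) ^ 2) /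
        (8 * X ^ 2 * η) + 2 * X ^ 2 * η) =
        lam γ b s * (∑ z, kr γ b s z * (lb b (s + z) - lb b s) ^ 2) / (8 * X ^ 2 * η) +
          lam γ b s * (2 * X ^ 2 * η) := by
      intro s; ring
    rw [Finset.sum_congr rfl fun s _ => by rw [e1 s, e3 s], Finset.sum_add_distrib,
      ← Finset.sum_div, ← Finset.sum_mul, h.sum_lam, one_mul]
  rw [h4] at h3
  have h5 : (∑ s, lam γ b s * ∑ z, kr γ b s z * (lb b (s + z) - lb b s) ^ 2) /
      (8 * X ^ 2 * η) ≤ 2 * X * η := by
    rw [div_le_iff₀ (by positivity)]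
    calc _ ≤ 16 * X ^ 3 * η ^ 2 := h2
      _ = 2 * X * η * (8 * X ^ 2 * η) := by ring
  have h6 : 2 * X * η ≤ 2 * X ^ 2 * η := by
    have : X * 1 ≤ X * X := mul_le_mul_of_nonneg_left hX (by linarith)
    nlinarith
  linarith

/-- One more step. -/
private theorem A4_rec (h : Ap γ b y η X) (l : ℕ) :
    ∑ s, lam γ b s * ∑ v, pw (kr γ b s) (l + 1) v * |lb b (s + v) - lb b s| ≤
      (∑ s, lam γ b s * ∑ v, pw (kr γ b s) l v * |lb b (s + v) - lb b s|) +
        42 * X ^ 2 * η ^ 4 * l + 4 * X ^ 2 * η := by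
  have hX : (0 : ℝ) ≤ X := by linarith [h.X1]
  have hpoint : ∀ s z, ∑ v, pw (kr γ b s) l v * |lb b (s + (z + v)) - lb b s| ≤
      (∑ v, pw (kr γ b (s + z)) l v * |lb b (s + z + v) - lb b (s + z)|) +
        |lb b (s + z) - lb b s| +
        2 * X * l * ∑ w, |kr γ b (s + z) w - kr γ b s w| := by
    intro s z
    have hd := pw_diff (h.kr_nonneg s) (h.sum_kr s) (h.kr_nonneg (s + z)) (h.sum_kr (s + z)) l
    have hsymm : ∑ w, |kr γ b (s + z) w - kr γ b s w| = ∑ w, |kr γ b s w - kr γ b (s + z) w| :=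
      Finset.sum_congr rfl fun w _ => abs_sub_comm _ _
    have h1 : ∀ v, pw (kr γ b s) l v * |lb b (s + (z + v)) - lb b s| ≤
        pw (kr γ b (s + z)) l v * |lb b (s + z + v) - lb b (s + z)| +
          pw (kr γ b (s + z)) l v * |lb b (s + z) - lb b s| +
          2 * X * |pw (kr γ b s) l v - pw (kr γ b (s + z)) l v| := by
      intro v
      have a1 : 0 ≤ pw (kr γ b (s + z)) l v := pw_nonneg (h.kr_nonneg (s + z)) l v
      have a2 : |lb b (s + (z + v)) - lb b s| ≤
          |lb b (s + z + v) - lb b (s + z)| + |lb b (s + z) - lb b s| := by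
        rw [← add_assoc]
        exact abs_sub_le _ _ _
      have a3 : |lb b (s + (z + v)) - lb b s| ≤ 2 * X := A4_lb_diff h _ _
      have a4 : (pw (kr γ b s) l v - pw (kr γ b (s + z)) l v) * |lb b (s + (z + v)) - lb b s| ≤
          |pw (kr γ b s) l v - pw (kr γ b (s + z)) l v| * (2 * X) :=
        (mul_le_mul_of_nonneg_right (le_abs_self _) (abs_nonneg _)).trans
          (mul_le_mul_of_nonneg_left a3 (abs_nonneg _))
      have a5 := mul_le_mul_of_nonneg_left a2 a1
      nlinarith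
    calc ∑ v, pw (kr γ b s) l v * |lb b (s + (z + v)) - lb b s|
        ≤ ∑ v, (pw (kr γ b (s + z)) l v * |lb b (s + z + v) - lb b (s + z)| +
          pw (kr γ b (s + z)) l v * |lb b (s + z) - lb b s| +
          2 * X * |pw (kr γ b s) l v - pw (kr γ b (s + z)) l v|) :=
          Finset.sum_le_sum fun v _ => h1 v
      _ = (∑ v, pw (kr γ b (s + z)) l v * |lb b (s + z + v) - lb b (s + z)|) +
          |lb b (s + z) - lb b s| +
          2 * X * ∑ v, |pw (kr γ b s) l v - pw (kr γ b (s + z)) l v| := by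
          rw [Finset.sum_add_distrib, Finset.sum_add_distrib, ← Finset.sum_mul,
            sum_pw (h.sum_kr (s + z)), one_mul, ← Finset.mul_sum]
      _ ≤ _ := by
          rw [hsymm]
          have := mul_le_mul_of_nonneg_left hd (by linarith : (0 : ℝ) ≤ 2 * X)
          linarith
  have e1 : ∀ s, ∑ v, pw (kr γ b s) (l + 1) v * |lb b (s + v) - lb b s| =
      ∑ z, kr γ b s z * ∑ v, pw (kr γ b s) l v * |lb b (s + (z + v)) - lb b s| := fun s =>
    sum_pw_succ (kr γ b s) (fun v => |lb b (s + v) - lb b s|) l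
  have h2 : ∀ s, ∑ v, pw (kr γ b s) (l + 1) v * |lb b (s + v) - lb b s| ≤
      (∑ z, kr γ b s z *
        ∑ v, pw (kr γ b (s + z)) l v * |lb b (s + z + v) - lb b (s + z)|) +
      (∑ z, kr γ b s z * |lb b (s + z) - lb b s|) +
      2 * X * l * ∑ z, kr γ b s z * ∑ w, |kr γ b (s + z) w - kr γ b s w| := by
    intro s
    rw [e1 s, Finset.mul_sum, ← Finset.sum_add_distrib, ← Finset.sum_add_distrib]
    refine Finset.sum_le_sum fun z _ => ?_
    have := mul_le_mul_of_nonneg_left (hpoint s z) (h.kr_nonneg s z)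
    refine this.trans (le_of_eq ?_)
    ring
  calc ∑ s, lam γ b s * ∑ v, pw (kr γ b s) (l + 1) v * |lb b (s + v) - lb b s|
      ≤ ∑ s, lam γ b s * ((∑ z, kr γ b s z *
        ∑ v, pw (kr γ b (s + z)) l v * |lb b (s + z + v) - lb b (s + z)|) +
      (∑ z, kr γ b s z * |lb b (s + z) - lb b s|) +
      2 * X * l * ∑ z, kr γ b s z * ∑ w, |kr γ b (s + z) w - kr γ b s w|) :=
        Finset.sum_le_sum fun s _ => mul_le_mul_of_nonneg_left (h2 s) (h.lam_nonneg s)
    _ = (∑ s, lam γ b s * ∑ z, kr γ b s z *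
        ∑ v, pw (kr γ b (s + z)) l v * |lb b (s + z + v) - lb b (s + z)|) +
        (∑ s, lam γ b s * ∑ z, kr γ b s z * |lb b (s + z) - lb b s|) +
        2 * X * l * ∑ s, lam γ b s *
          ∑ z, kr γ b s z * ∑ w, |kr γ b (s + z) w - kr γ b s w| := by
        rw [Finset.mul_sum, ← Finset.sum_add_distrib, ← Finset.sum_add_distrib]
        exact Finset.sum_congr rfl fun s _ => by ring
    _ ≤ _ := by
        rw [h.lam_step (fun u => ∑ v, pw (kr γ b u) l v * |lb b (u + v) - lb b u|)]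
        have h3 := A4_step h
        have h4 := mul_le_mul_of_nonneg_left h.kr_diff
          (by positivity : (0 : ℝ) ≤ 2 * X * l)
        have h5 : 2 * X * l * (21 * X * η ^ 4) = 42 * X ^ 2 * η ^ 4 * l := by ring
        linarith

/-- Independent steps stay on the same level of `log b`. -/
theorem Ap.walk (h : Ap γ b y η X) (l : ℕ) :
    ∑ s, lam γ b s * ∑ v, pw (kr γ b s) l v * |lb b (s + v) - lb b s| ≤
      21 * X ^ 2 * η ^ 4 * l ^ 2 + 4 * X ^ 2 * η * l := by
  induction l with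
  | zero =>
    have : ∀ s, ∑ v, pw (kr γ b s) 0 v * |lb b (s + v) - lb b s| = 0 := by
      intro s
      refine Finset.sum_eq_zero fun v _ => ?_
      simp only [pw]
      split_ifs with hv
      · subst hv
        rw [add_zero, sub_self, abs_zero, mul_zero]
      · rw [zero_mul]
    rw [Finset.sum_congr rfl fun s _ => by rw [this s, mul_zero], Finset.sum_const_zero]
    simp
  | succ l ih =>
    have h1 := A4_rec h l
    have h2 : 0 ≤ 21 * X ^ 2 * η ^ 4 := by
      have := h.eta0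
      positivity
    push_cast
    nlinarith

end Pool.Agent.LLog
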