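import Pool.Agent.LLog.A4

open Finset Module

namespace Pool.Agent.LLog

variable {A : Type} [AddCommGroup A] [Fintype A] {γ b : A → ℝ} {y η X : ℝ}

private theorem A5_eps (h : Ap γ b y η X) : η ^ 8 ≤ 1 / 256 := by
  have h1 : η ^ 8 ≤ (1 / 2 : ℝ) ^ 8 := pow_le_pow_left₀ h.eta0.le h.eta1 8
  refine h1.trans (le_of_eq ?_)
  norm_num

/-- Cauchy-Schwarz for the first defect. -/
private theorem A5_cs (h : Ap γ b y η X) (g : A → ℝ) (S : ℝ) (hS : 0 ≤ S)
    (hg : ∑ s, g s ^ 2 ≤ S ^ 2 * sT b) :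
    ∑ s, |g s| * |cv γ b s - y * b s| ≤ S * (η ^ 8 * y * sT b) := by
  have hy := h.ypos
  have hη := h.eta0
  have hT := h.T_pos
  have h1 : (∑ s, |g s| * |cv γ b s - y * b s|) ^ 2 ≤
      (∑ s, |g s| ^ 2) * ∑ s, |cv γ b s - y * b s| ^ 2 :=
    Finset.sum_mul_sq_le_sq_mul_sq _ _ _
  have h2 : ∑ s, |g s| ^ 2 = ∑ s, g s ^ 2 := Finset.sum_congr rfl fun s _ => sq_abs _
  have h3 : ∑ s, |cv γ b s - y * b s| ^ 2 = ∑ s, (cv γ b s - y * b s) ^ 2 :=
    Finset.sum_congr rfl fun s _ => sq_abs _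
  rw [h2, h3] at h1
  have h4 : (∑ s, |g s| * |cv γ b s - y * b s|) ^ 2 ≤ (S * (η ^ 8 * y * sT b)) ^ 2 := by
    refine h1.trans ?_
    have h5 : 0 ≤ ∑ s, (cv γ b s - y * b s) ^ 2 := Finset.sum_nonneg fun _ _ => sq_nonneg _
    calc (∑ s, g s ^ 2) * ∑ s, (cv γ b s - y * b s) ^ 2
        ≤ (S ^ 2 * sT b) * (η ^ 16 * y ^ 2 * sT b) :=
          mul_le_mul hg h.h1 h5 (by positivity)
      _ = (S * (η ^ 8 * y * sT b)) ^ 2 := by ring
  exact (abs_le_of_sq_le_sq' h4 (by positivity)).2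

/-- A good starting point. -/
theorem Ap.good_pt (h : Ap γ b y η X) (M : ℕ) (hM : 1 ≤ M) (B k : ℝ) (hB : ∑ s, b s ≤ B)
    (hk : 0 < k) (hk1 : k ≤ 1) (hk2 : 16 * η ^ 8 ≤ k) :
    ∃ s : A,
      (∀ l ≤ M, ∑ v, pw (kr γ b s) l v * |lb b (s + v) - lb b s| ≤
        8 * (M + 1) * (21 * X ^ 2 * η ^ 4 * M ^ 2 + 4 * X ^ 2 * η * M)) ∧
      (∑ z, kr γ b s z * (lb b (s + z) - lb b s) ^ 2 ≤ 128 * X ^ 3 * η ^ 2) ∧
      sT b ≤ 8 * B * b s ∧ y * (1 - k) * b s ≤ cv γ b s := by
  classical
  have hX : 0 < X := by linarith [h.X1]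
  have hη := h.eta0
  have hy := h.ypos
  have hT := h.T_pos
  have heps := A5_eps h
  have heps0 : 0 < η ^ 8 := by positivity
  have hZ := h.Z1_pos
  have hM' : (1 : ℝ) ≤ M := by exact_mod_cast hM
  have hB0 : 0 < B := by
    refine lt_of_lt_of_le ?_ hB
    by_contra hcon
    push Not at hcon
    have h1 : ∀ s ∈ Finset.univ, b s = 0 :=
      (Finset.sum_eq_zero_iff_of_nonneg fun s _ => (h.bpos s).le).1
        (le_antisymm hcon (Finset.sum_nonneg fun s _ => (h.bpos s).le))
    have h2 : sT b = 0 := by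
      unfold sT
      exact Finset.sum_eq_zero fun s hs => by rw [h1 s hs]; ring
    linarith
  set e0 : ℝ := 21 * X ^ 2 * η ^ 4 * M ^ 2 + 4 * X ^ 2 * η * M with he0
  have he0p : 0 < e0 := by positivity
  set w : ℕ → A → ℝ := fun l s => ∑ v, pw (kr γ b s) l v * |lb b (s + v) - lb b s| with hw
  have hw0 : ∀ l s, 0 ≤ w l s := fun l s => Finset.sum_nonneg fun v _ =>
    mul_nonneg (pw_nonneg (h.kr_nonneg s) l v) (abs_nonneg _)
  set t1 : A → ℝ := fun s => ∑ l ∈ Finset.range (M + 1), w l s with ht1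
  have ht1nn : ∀ s, 0 ≤ t1 s := fun s => Finset.sum_nonneg fun l _ => hw0 l s
  set t2 : A → ℝ := fun s => ∑ z, kr γ b s z * (lb b (s + z) - lb b s) ^ 2 with ht2
  have ht2nn : ∀ s, 0 ≤ t2 s := fun s => Finset.sum_nonneg fun z _ =>
    mul_nonneg (h.kr_nonneg s z) (sq_nonneg _)
  -- averages
  have av1 : ∑ s, lam γ b s * t1 s ≤ (M + 1) * e0 := by
    have e1 : ∑ s, lam γ b s * t1 s = ∑ l ∈ Finset.range (M + 1), ∑ s, lam γ b s * w l s := by
      rw [Finset.sum_comm]
      exact Finset.sum_congr rfl fun s _ => by rw [ht1, Finset.mul_sum]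
    rw [e1]
    have e2 : ∀ l ∈ Finset.range (M + 1), ∑ s, lam γ b s * w l s ≤ e0 := by
      intro l hl
      have hlM : (l : ℝ) ≤ M := by exact_mod_cast Nat.lt_succ_iff.1 (Finset.mem_range.1 hl)
      have hl0 : (0 : ℝ) ≤ l := Nat.cast_nonneg l
      refine (h.walk l).trans ?_
      rw [he0]
      have a1 : (l : ℝ) ^ 2 ≤ (M : ℝ) ^ 2 := pow_le_pow_left₀ hl0 hlM 2
      have a2 : 21 * X ^ 2 * η ^ 4 * (l : ℝ) ^ 2 ≤ 21 * X ^ 2 * η ^ 4 * (M : ℝ) ^ 2 :=
        mul_le_mul_of_nonneg_left a1 (by positivity)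
      have a3 : 4 * X ^ 2 * η * (l : ℝ) ≤ 4 * X ^ 2 * η * (M : ℝ) :=
        mul_le_mul_of_nonneg_left hlM (by positivity)
      linarith
    refine (Finset.sum_le_sum e2).trans (le_of_eq ?_)
    rw [Finset.sum_const, Finset.card_range, nsmul_eq_mul]
    push_cast
    ring
  have av2 : ∑ s, lam γ b s * t2 s ≤ 16 * X ^ 3 * η ^ 2 := by
    rw [ht2, h.lam_kr (fun s z => (lb b (s + z) - lb b s) ^ 2), div_le_iff₀ hZ]
    exact h.grad
  have hZlo := h.Z1_lo
  have hyT : 0 < y * sT b := by positivity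
  set P3 : A → Prop := fun s => 8 * B * b s < sT b with hP3
  set P4 : A → Prop := fun s => cv γ b s < y * (1 - k) * b s with hP4
  have lam_eq : ∀ s, lam γ b s = b s * cv γ b s / sZ1 γ b := fun s => rfl
  have av3 : ∑ s, lam γ b s * (if P3 s then 1 else 0) ≤ 7 / 50 := by
    have e1 : ∀ s, b s * cv γ b s * (if P3 s then (1 : ℝ) else 0) ≤
        y * (sT b / (8 * B)) * b s + |b s| * |cv γ b s - y * b s| := by
      intro s
      have hb := h.bpos s
      have a1 : b s * (cv γ b s - y * b s) ≤ |b s| * |cv γ b s - y * b s| := by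
        rw [← abs_mul]; exact le_abs_self _
      have a0 : 0 ≤ |b s| * |cv γ b s - y * b s| := by positivity
      split_ifs with hs
      · rw [mul_one]
        have a2 : b s ≤ sT b / (8 * B) := by
          rw [le_div_iff₀ (by positivity)]
          have : 8 * B * b s < sT b := hs
          linarith
        have a3 : y * b s * b s ≤ y * (sT b / (8 * B)) * b s :=
          mul_le_mul_of_nonneg_right (mul_le_mul_of_nonneg_left a2 hy.le) hb.le
        nlinarith
      · rw [mul_zero]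
        positivity
    have e2 : ∑ s, b s * cv γ b s * (if P3 s then (1 : ℝ) else 0) ≤
        y * sT b / 8 + η ^ 8 * y * sT b := by
      refine (Finset.sum_le_sum fun s _ => e1 s).trans ?_
      rw [Finset.sum_add_distrib, ← Finset.mul_sum]
      have a1 : y * (sT b / (8 * B)) * ∑ s, b s ≤ y * (sT b / (8 * B)) * B :=
        mul_le_mul_of_nonneg_left hB (by positivity)
      have a2 : y * (sT b / (8 * B)) * B = y * sT b / 8 := by
        field_simp
      have a3 := A5_cs h b 1 zero_le_one (by rw [one_pow, one_mul]; exact le_rfl)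
      rw [one_mul] at a3
      linarith
    have e3 : ∑ s, lam γ b s * (if P3 s then (1 : ℝ) else 0) =
        (∑ s, b s * cv γ b s * (if P3 s then (1 : ℝ) else 0)) / sZ1 γ b := by
      rw [Finset.sum_div]
      exact Finset.sum_congr rfl fun s _ => by rw [lam_eq s]; ring
    rw [e3, div_le_iff₀ hZ]
    nlinarith
  have av4 : ∑ s, lam γ b s * (if P4 s then 1 else 0) ≤ 7 / 100 := by
    have e1 : ∀ s, b s * cv γ b s * (if P4 s then (1 : ℝ) else 0) ≤
        (|cv γ b s| * |cv γ b s - y * b s|) / (k * y) := by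
      intro s
      have hc := h.cv_pos s
      split_ifs with hs
      · rw [mul_one, le_div_iff₀ (by positivity), abs_of_pos hc]
        have a1 : y * b s - cv γ b s ≤ |cv γ b s - y * b s| := by
          rw [abs_sub_comm]; exact le_abs_self _
        have a2 : k * y * b s < y * b s - cv γ b s := by
          have : cv γ b s < y * (1 - k) * b s := hs
          nlinarith
        have a3 : k * y * b s ≤ |cv γ b s - y * b s| := by linarith
        calc b s * cv γ b s * (k * y) = cv γ b s * (k * y * b s) := by ring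
          _ ≤ cv γ b s * |cv γ b s - y * b s| := mul_le_mul_of_nonneg_left a3 hc.le
      · rw [mul_zero]
        positivity
    have e2 : ∑ s, b s * cv γ b s * (if P4 s then (1 : ℝ) else 0) ≤
        ((1 + η ^ 8) * y) * (η ^ 8 * y * sT b) / (k * y) := by
      refine (Finset.sum_le_sum fun s _ => e1 s).trans ?_
      rw [← Finset.sum_div]
      refine div_le_div_of_nonneg_right ?_ (by positivity)
      exact A5_cs h (cv γ b) ((1 + η ^ 8) * y) (by positivity) h.Z2_hi
    have e3 : ∑ s, lam γ b s * (if P4 s then (1 : ℝ) else 0) =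
        (∑ s, b s * cv γ b s * (if P4 s then (1 : ℝ) else 0)) / sZ1 γ b := by
      rw [Finset.sum_div]
      exact Finset.sum_congr rfl fun s _ => by rw [lam_eq s]; ring
    rw [e3, div_le_iff₀ hZ]
    refine e2.trans ?_
    rw [div_le_iff₀ (by positivity)]
    have a1 : (1 + η ^ 8) * η ^ 8 * 16 ≤ (1 + 1 / 256) * k := by
      have b1 : (1 + η ^ 8) * (16 * η ^ 8) ≤ (1 + 1 / 256) * k :=
        mul_le_mul (by linarith) hk2 (by positivity) (by norm_num)
      linarith
    have a2 : (255 / 256 : ℝ) * (y * sT b) ≤ sZ1 γ b := by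
      refine le_trans ?_ hZlo
      exact mul_le_mul_of_nonneg_right (by linarith) hyT.le
    have a3 : 7 / 100 * sZ1 γ b * (k * y) ≥ 7 / 100 * ((255 / 256 : ℝ) * (y * sT b)) * (k * y) := by
      have : 0 ≤ k * y := by positivity
      nlinarith
    have a4 : (1 + η ^ 8) * y * (η ^ 8 * y * sT b) = ((1 + η ^ 8) * η ^ 8) * (y * (y * sT b)) := by
      ring
    have a5 : ((1 + η ^ 8) * η ^ 8) * (y * (y * sT b)) ≤
        ((1 + 1 / 256) * k / 16) * (y * (y * sT b)) :=
      mul_le_mul_of_nonneg_right (by linarith) (by positivity)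
    have a6 : 0 < k * (y * (y * sT b)) := by positivity
    nlinarith
  -- total
  by_contra hcon
  push Not at hcon
  have hone : ∀ s, 1 ≤ t1 s / (8 * ((M + 1) * e0)) + t2 s / (128 * X ^ 3 * η ^ 2) +
      (if P3 s then 1 else 0) + (if P4 s then 1 else 0) := by
    intro s
    have n1 : 0 ≤ t1 s / (8 * ((M + 1) * e0)) := div_nonneg (ht1nn s) (by positivity)
    have n2 : 0 ≤ t2 s / (128 * X ^ 3 * η ^ 2) := div_nonneg (ht2nn s) (by positivity)
    have n3 : (0 : ℝ) ≤ (if P3 s then 1 else 0) := by split_ifs <;> norm_num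
    have n4 : (0 : ℝ) ≤ (if P4 s then 1 else 0) := by split_ifs <;> norm_num
    by_contra hlt
    push Not at hlt
    have c1 : t1 s < 8 * ((M + 1) * e0) := by
      have : t1 s / (8 * ((M + 1) * e0)) < 1 := by linarith
      rwa [div_lt_one (by positivity)] at this
    have c2 : t2 s < 128 * X ^ 3 * η ^ 2 := by
      have : t2 s / (128 * X ^ 3 * η ^ 2) < 1 := by linarith
      rwa [div_lt_one (by positivity)] at this
    have c3 : ¬ P3 s := by
      intro hp
      rw [if_pos hp] at hlt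
      linarith
    have c4 : ¬ P4 s := by
      intro hp
      rw [if_pos hp] at hlt
      linarith
    have d1 : ∀ l ≤ M, ∑ v, pw (kr γ b s) l v * |lb b (s + v) - lb b s| ≤
        8 * (M + 1) * e0 := by
      intro l hl
      have : w l s ≤ t1 s :=
        Finset.single_le_sum (f := fun l => w l s) (fun l _ => hw0 l s)
          (Finset.mem_range.2 (Nat.lt_succ_of_le hl))
      change w l s ≤ _
      linarith
    exact absurd (hcon s d1 c2.le (not_lt.1 c3)) (not_lt.2 (not_lt.1 c4))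
  have htot : 1 ≤ ∑ s, lam γ b s * (t1 s / (8 * ((M + 1) * e0)) +
      t2 s / (128 * X ^ 3 * η ^ 2) + (if P3 s then 1 else 0) + (if P4 s then 1 else 0)) := by
    refine h.sum_lam.symm.le.trans ?_
    refine Finset.sum_le_sum fun s _ => ?_
    have := mul_le_mul_of_nonneg_left (hone s) (h.lam_nonneg s)
    rwa [mul_one] at this
  have hsplit : ∑ s, lam γ b s * (t1 s / (8 * ((M + 1) * e0)) +
      t2 s / (128 * X ^ 3 * η ^ 2) + (if P3 s then 1 else 0) + (if P4 s then 1 else 0)) =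
      (∑ s, lam γ b s * t1 s) / (8 * ((M + 1) * e0)) +
      (∑ s, lam γ b s * t2 s) / (128 * X ^ 3 * η ^ 2) +
      (∑ s, lam γ b s * (if P3 s then 1 else 0)) +
      ∑ s, lam γ b s * (if P4 s then 1 else 0) := by
    rw [Finset.sum_div, Finset.sum_div, ← Finset.sum_add_distrib, ← Finset.sum_add_distrib,
      ← Finset.sum_add_distrib]
    exact Finset.sum_congr rfl fun s _ => by ring
  rw [hsplit] at htot
  have f1 : (∑ s, lam γ b s * t1 s) / (8 * ((M + 1) * e0)) ≤ 1 / 8 := by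
    rw [div_le_iff₀ (by positivity)]
    linarith
  have f2 : (∑ s, lam γ b s * t2 s) / (128 * X ^ 3 * η ^ 2) ≤ 1 / 8 := by
    rw [div_le_iff₀ (by positivity)]
    linarith
  linarith

end Pool.Agent.LLog
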