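import Pool.Agent.LLog.Defs

open Finset Module

namespace Pool.Agent.LLog

namespace A6

section lists

variable {V : Type} [Fintype V]

/-- Expectation of a function of an iid list. -/
noncomputable def ex (π : V → ℝ) : ℕ → (List V → ℝ) → ℝ
  | 0, f => f []
  | n + 1, f => ∑ z, π z * ex π n (fun l => f (z :: l))

lemma ex_add (π : V → ℝ) (n : ℕ) (f g : List V → ℝ) :
    ex π n (fun l => f l + g l) = ex π n f + ex π n g := by
  induction n generalizing f g with
  | zero => rfl
  | succ n ih =>
    simp only [ex]
    rw [← Finset.sum_add_distrib]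
    refine Finset.sum_congr rfl (fun z _ => ?_)
    rw [ih]
    ring

lemma ex_mul (π : V → ℝ) (n : ℕ) (a : ℝ) (f : List V → ℝ) :
    ex π n (fun l => a * f l) = a * ex π n f := by
  induction n generalizing f with
  | zero => rfl
  | succ n ih =>
    simp only [ex]
    rw [Finset.mul_sum]
    refine Finset.sum_congr rfl (fun z _ => ?_)
    rw [ih]
    ring

lemma ex_const (π : V → ℝ) (hπ1 : ∑ z, π z = 1) (n : ℕ) (a : ℝ) : ex π n (fun _ => a) = a := by
  induction n with
  | zero => rfl
  | succ n ih =>
    simp only [ex]
    rw [ih, ← Finset.sum_mul, hπ1, one_mul]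

lemma ex_mono (π : V → ℝ) (hπ : ∀ z, 0 ≤ π z) (n : ℕ) (f g : List V → ℝ)
    (h : ∀ l, l.length = n → f l ≤ g l) : ex π n f ≤ ex π n g := by
  induction n generalizing f g with
  | zero => exact h [] rfl
  | succ n ih =>
    simp only [ex]
    refine Finset.sum_le_sum (fun z _ => mul_le_mul_of_nonneg_left ?_ (hπ z))
    exact ih _ _ (fun l hl => h (z :: l) (by simp [hl]))

lemma ex_sum (π : V → ℝ) {ι : Type} (s : Finset ι) (n : ℕ) (f : ι → List V → ℝ) :
    ex π n (fun l => ∑ i ∈ s, f i l) = ∑ i ∈ s, ex π n (f i) := by
  induction n generalizing f with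
  | zero => rfl
  | succ n ih =>
    simp only [ex]
    rw [Finset.sum_comm]
    refine Finset.sum_congr rfl (fun z _ => ?_)
    rw [ih, Finset.mul_sum]

end lists

section count

variable {V : Type} [AddCommGroup V]

open Classical in
/-- Number of sublists with sum `v`. -/
noncomputable def N : List V → V → ℝ
  | [], v => if v = 0 then 1 else 0
  | z :: l, v => N l v + N l (v - z)

lemma N_nonneg (l : List V) (v : V) : 0 ≤ N l v := by
  induction l generalizing v with
  | nil => simp only [N]; split_ifs <;> norm_num
  | cons z l ih => simp only [N]; exact add_nonneg (ih _) (ih _)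

lemma N_sum [Fintype V] (l : List V) : ∑ v, N l v = 2 ^ l.length := by
  classical
  induction l with
  | nil =>
    simp only [N, List.length_nil, pow_zero]
    rw [Finset.sum_eq_single (0 : V)]
    · simp
    · intro b _ hb; simp [hb]
    · intro h; exact absurd (Finset.mem_univ _) h
  | cons z l ih =>
    simp only [N]
    rw [Finset.sum_add_distrib, ih]
    have : ∑ v, N l (v - z) = ∑ v, N l v :=
      Fintype.sum_equiv (Equiv.subRight z) _ _ (fun v => rfl)
    rw [this, ih, List.length_cons, pow_succ]
    ring

/-- One step of the lazy walk (twice the average). -/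
noncomputable def op [Fintype V] (π : V → ℝ) (g : V → ℝ) (v : V) : ℝ := g v + ∑ z, π z * g (v - z)

lemma ex_N [Fintype V] (π : V → ℝ) (hπ1 : ∑ z, π z = 1) (n : ℕ) (v : V) :
    ex π n (fun l => N l v) = (op π)^[n] (pw π 0) v := by
  induction n generalizing v with
  | zero => rfl
  | succ n ih =>
    rw [Function.iterate_succ_apply']
    simp only [ex, N, op]
    have h1 : ∀ z, ex π n (fun l => N l v + N l (v - z)) =
        (op π)^[n] (pw π 0) v + (op π)^[n] (pw π 0) (v - z) := by
      intro z
      rw [ex_add, ih, ih]
    simp only [h1, mul_add]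
    rw [Finset.sum_add_distrib, ← Finset.sum_mul, hπ1, one_mul]

lemma iter_add [Fintype V] (π : V → ℝ) (n : ℕ) (g h : V → ℝ) :
    (op π)^[n] (fun v => g v + h v) = fun v => (op π)^[n] g v + (op π)^[n] h v := by
  induction n generalizing g h with
  | zero => rfl
  | succ n ih =>
    rw [Function.iterate_succ_apply, Function.iterate_succ_apply, Function.iterate_succ_apply, ← ih]
    congr 1
    funext v
    simp only [op, mul_add, Finset.sum_add_distrib]
    ring

open Classical in
lemma iter_out [Fintype V] (π : V → ℝ) (Y : Finset V) (M : ℕ) (β : ℝ)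
    (hstay : ∀ l ≤ M, ∑ v, (if v ∈ Y then 0 else pw π l v) ≤ β) (n i : ℕ) (h : i + n ≤ M) :
    ∑ v, (if v ∈ Y then 0 else (op π)^[n] (pw π i) v) ≤ β * 2 ^ n := by
  induction n generalizing i with
  | zero => simpa using hstay i (by omega)
  | succ n ih =>
    have e : (op π)^[n + 1] (pw π i) =
        fun v => (op π)^[n] (pw π i) v + (op π)^[n] (pw π (i + 1)) v := by
      rw [Function.iterate_succ_apply, ← iter_add]
      rfl
    rw [e]
    have h1 := ih i (by omega)
    have h2 := ih (i + 1) (by omega)
    have h3 : ∑ v, (if v ∈ Y then (0 : ℝ) else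
        ((op π)^[n] (pw π i) v + (op π)^[n] (pw π (i + 1)) v)) =
        ∑ v, (if v ∈ Y then 0 else (op π)^[n] (pw π i) v) +
        ∑ v, (if v ∈ Y then 0 else (op π)^[n] (pw π (i + 1)) v) := by
      rw [← Finset.sum_add_distrib]
      refine Finset.sum_congr rfl (fun v _ => ?_)
      split_ifs <;> ring
    rw [h3, pow_succ]
    linarith

end count

section span

variable {F V : Type} [Field F] [AddCommGroup V] [Module F V]

/-- The span of a list. -/
def H (F : Type) [Field F] [Module F V] (l : List V) : Submodule F V :=
  Submodule.span F {x | x ∈ l}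

lemma H_cons (z : V) (l : List V) : H F (z :: l) = Submodule.span F {z} ⊔ H F l := by
  unfold H
  rw [← Submodule.span_union]
  congr 1
  ext x
  simp

lemma mem_cons (z : V) (l : List V) : z ∈ H F (z :: l) :=
  Submodule.subset_span (by simp)

lemma H_le (z : V) (l : List V) : H F l ≤ H F (z :: l) := by
  rw [H_cons]; exact le_sup_right

lemma H_eq {z : V} {l : List V} (h : z ∈ H F l) : H F (z :: l) = H F l := by
  rw [H_cons, sup_eq_right, Submodule.span_singleton_le_iff_mem]
  exact h

open Classical in
/-- Number of new directions. -/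
noncomputable def rho (F : Type) [Field F] [Module F V] : List V → ℕ
  | [] => 0
  | z :: l => rho F l + if z ∈ H F l then 0 else 1

lemma rho_le (l : List V) : rho F l ≤ l.length := by
  induction l with
  | nil => simp [rho]
  | cons z l ih =>
    simp only [rho, List.length_cons]
    split_ifs <;> omega

lemma finrank_H [Fintype V] (l : List V) : finrank F (H F l) ≤ rho F l := by
  induction l with
  | nil =>
    have e : H F ([] : List V) = ⊥ := by
      unfold H
      have : {x : V | x ∈ ([] : List V)} = ∅ := by ext x; simp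
      rw [this, Submodule.span_empty]
    rw [e, finrank_bot]
    exact Nat.zero_le _
  | cons z l ih =>
    simp only [rho]
    split_ifs with h
    · rw [H_eq h]; exact ih
    · rw [H_cons]
      refine (Submodule.finrank_add_le_finrank_add_finrank _ _).trans ?_
      have : finrank F (Submodule.span F {z}) ≤ 1 := by
        refine (finrank_span_le_card {z}).trans ?_
        simp
      omega

lemma N_zero (l : List V) (v : V) (hv : v ∉ H F l) : N l v = 0 := by
  induction l generalizing v with
  | nil =>
    simp only [N]
    rw [if_neg]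
    rintro rfl
    exact hv (Submodule.zero_mem _)
  | cons z l ih =>
    simp only [N]
    rw [ih v (fun h => hv (H_le z l h)), ih (v - z) (fun h => hv ?_), add_zero]
    have := Submodule.add_mem _ (H_le z l h) (mem_cons (F := F) z l)
    simpa using this

lemma N_le (l : List V) (v : V) : N l v * 2 ^ rho F l ≤ 2 ^ l.length := by
  induction l generalizing v with
  | nil =>
    simp only [N, rho, pow_zero, mul_one, List.length_nil]
    split_ifs <;> norm_num
  | cons z l ih =>
    simp only [N, rho, List.length_cons]
    have h1 := ih v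
    have h2 := ih (v - z)
    split_ifs with h
    · rw [add_zero, pow_succ]
      linarith
    · rw [pow_succ, pow_succ]
      by_cases hv : v ∈ H F l
      · have : v - z ∉ H F l := by
          intro h3
          apply h
          have := Submodule.sub_mem _ hv h3
          simpa using this
        rw [N_zero l (v - z) this]
        linarith
      · rw [N_zero l v hv]
        linarith

end span

end A6

open A6 in
open Classical in
/-- Sampling lemma: a walk which stays in a small set lives on a small subspace. -/
theorem sampling {F V : Type} [Field F] [AddCommGroup V] [Module F V] [Fintype V]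
    (π : V → ℝ) (hπ : ∀ z, 0 ≤ π z) (hπ1 : ∑ z, π z = 1) (Y : Finset V) (R M : ℕ) (hM : 1 ≤ M)
    (hY : #Y ≤ 2 ^ R) (β κ : ℝ) (hβ : β ≤ 1 / 8)
    (hstay : ∀ l ≤ M, ∑ v, (if v ∈ Y then 0 else pw π l v) ≤ β)
    (hκ : 4 / 3 * (((R : ℝ) + 1) / M + 2 * β) < κ) :
    ∃ H : Submodule F V, finrank F H ≤ R + 1 ∧ 1 - κ ≤ ∑ z, if z ∈ H then π z else 0 := by
  by_contra hcon
  push Not at hcon
  have hM0 : (0 : ℝ) < M := by exact_mod_cast hM
  -- beta is nonnegative
  have hpw : ∀ l v, 0 ≤ pw π l v := by
    intro l
    induction l with
    | zero => intro v; simp only [pw]; split_ifs <;> norm_num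
    | succ n ih => intro v; exact Finset.sum_nonneg (fun z _ => mul_nonneg (hπ z) (ih _))
  have hβ0 : 0 ≤ β := by
    refine le_trans (Finset.sum_nonneg (fun v _ => ?_)) (hstay 0 (by omega))
    split_ifs
    · exact le_rfl
    · exact hpw _ _
  have hκ0 : 0 < κ := lt_of_le_of_lt (by positivity) hκ
  -- the bad lists
  set bad : List V → ℝ := fun l => if R + 1 < rho F l then 1 else 0 with hbad
  have hbad0 : ∀ l, 0 ≤ bad l := fun l => by simp only [hbad]; split_ifs <;> norm_num
  set out : List V → ℝ := fun l => ∑ v, (if v ∈ Y then 0 else N l v) with hout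
  have hout0 : ∀ l, 0 ≤ out l := fun l => Finset.sum_nonneg (fun v _ => by
    split_ifs
    · exact le_rfl
    · exact N_nonneg _ _)
  have hexout : ∀ n ≤ M, ex π n out ≤ β * 2 ^ n := by
    intro n hn
    have h1 : ex π n out = ∑ v, ex π n (fun l => if v ∈ Y then 0 else N l v) := by
      rw [hout, ex_sum]
    rw [h1]
    refine le_trans (le_of_eq ?_) (iter_out π Y M β hstay n 0 (by omega))
    refine Finset.sum_congr rfl (fun v _ => ?_)
    by_cases hv : v ∈ Y
    · simp only [hv, if_true]
      exact ex_const π hπ1 n 0
    · simp only [hv, if_false]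
      exact ex_N π hπ1 n v
  have hbo : ∀ n (l : List V), l.length = n → bad l ≤ (2 / 2 ^ n) * out l := by
    intro n l hl
    simp only [hbad]
    split_ifs with h
    · have h1 := N_sum l
      have h2 : ∑ v, N l v = out l + ∑ v ∈ Y, N l v := by
        rw [hout]
        have : ∑ v ∈ Y, N l v = ∑ v, (if v ∈ Y then N l v else 0) := by
          rw [Finset.sum_ite_mem, Finset.univ_inter]
        rw [this, ← Finset.sum_add_distrib]
        refine Finset.sum_congr rfl (fun v _ => ?_)
        split_ifs <;> ring
      have h3 : (∑ v ∈ Y, N l v) * 2 ^ rho F l ≤ 2 ^ R * 2 ^ l.length := by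
        rw [Finset.sum_mul]
        calc ∑ v ∈ Y, N l v * 2 ^ rho F l ≤ ∑ v ∈ Y, (2 : ℝ) ^ l.length :=
              Finset.sum_le_sum (fun v _ => N_le l v)
          _ = (#Y : ℝ) * 2 ^ l.length := by rw [Finset.sum_const, nsmul_eq_mul]
          _ ≤ 2 ^ R * 2 ^ l.length := by
              refine mul_le_mul_of_nonneg_right ?_ (by positivity)
              exact_mod_cast hY
      have h4 : (2 : ℝ) ^ (R + 2) ≤ 2 ^ rho F l := pow_le_pow_right₀ (by norm_num) (by omega)
      have h5 : 0 ≤ ∑ v ∈ Y, N l v := Finset.sum_nonneg (fun v _ => N_nonneg _ _)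
      have h6 : (∑ v ∈ Y, N l v) * 2 ^ (R + 2) ≤ 2 ^ R * 2 ^ l.length :=
        (mul_le_mul_of_nonneg_left h4 h5).trans h3
      have h7 : (∑ v ∈ Y, N l v) * 4 ≤ 2 ^ l.length := by
        rw [pow_add] at h6
        have hp : (0 : ℝ) < 2 ^ R := by positivity
        nlinarith
      rw [hl] at h1 h7
      rw [h1] at h2
      have hp : (0 : ℝ) < 2 ^ n := by positivity
      rw [div_mul_eq_mul_div, le_div_iff₀ hp]
      linarith
    · have := hout0 l
      positivity
  have hexbad : ∀ n ≤ M, ex π n bad ≤ 2 * β := by
    intro n hn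
    calc ex π n bad ≤ ex π n (fun l => (2 / 2 ^ n) * out l) := ex_mono π hπ n _ _ (hbo n)
      _ = (2 / 2 ^ n) * ex π n out := ex_mul _ _ _ _
      _ ≤ (2 / 2 ^ n) * (β * 2 ^ n) := mul_le_mul_of_nonneg_left (hexout n hn) (by positivity)
      _ = 2 * β := by field_simp
  -- growth of the expected number of new directions
  have hgrow : ∀ n, n ≤ M → n * (κ * (1 - 2 * β)) ≤ ex π n (fun l => (rho F l : ℝ)) := by
    intro n
    induction n with
    | zero => intro _; simp [ex, rho]
    | succ n ih =>
      intro hn
      have h1 := ih (by omega)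
      have h2 : ex π (n + 1) (fun l => (rho F l : ℝ)) = ex π n (fun l => (rho F l : ℝ)) +
          ex π n (fun l => ∑ z, π z * (if z ∈ A6.H F l then 0 else 1)) := by
        have h3 : ∀ z, ex π n (fun l => (rho F (z :: l) : ℝ)) =
            ex π n (fun l => (rho F l : ℝ)) + ex π n (fun l => if z ∈ A6.H F l then 0 else 1) := by
          intro z
          rw [← ex_add]
          congr 1
          funext l
          simp only [rho]
          push_cast
          rfl
        simp only [ex]
        simp only [h3, mul_add]
        rw [Finset.sum_add_distrib, ← Finset.sum_mul, hπ1, one_mul, ex_sum]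
        congr 1
        refine Finset.sum_congr rfl (fun z _ => ?_)
        rw [ex_mul]
      have h4 : ex π n (fun l => κ + (-κ) * bad l) ≤
          ex π n (fun l => ∑ z, π z * (if z ∈ A6.H F l then 0 else 1)) := by
        refine ex_mono π hπ n _ _ (fun l hl => ?_)
        by_cases hb : R + 1 < rho F l
        · have : bad l = 1 := by simp only [hbad]; rw [if_pos hb]
          rw [this]
          have : 0 ≤ ∑ z, π z * (if z ∈ A6.H F l then (0 : ℝ) else 1) :=
            Finset.sum_nonneg (fun z _ => mul_nonneg (hπ z) (by split_ifs <;> norm_num))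
          linarith
        · have : bad l = 0 := by simp only [hbad]; rw [if_neg hb]
          rw [this]
          have h5 := hcon (A6.H F l) ((finrank_H l).trans (by omega))
          have h6 : (∑ z, if z ∈ A6.H F l then π z else 0) +
              ∑ z, π z * (if z ∈ A6.H F l then (0 : ℝ) else 1) = 1 := by
            rw [← Finset.sum_add_distrib]
            refine (Finset.sum_congr rfl (fun z _ => ?_)).trans hπ1
            split_ifs <;> ring
          linarith
      rw [ex_add, ex_const π hπ1, ex_mul] at h4
      have h7 := hexbad n (by omega)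
      rw [h2]
      push_cast
      nlinarith
  have hup : ex π M (fun l => (rho F l : ℝ)) ≤ (R + 1) + M * (2 * β) := by
    have h1 : ex π M (fun l => (rho F l : ℝ)) ≤ ex π M (fun l => ((R : ℝ) + 1) + M * bad l) := by
      refine ex_mono π hπ M _ _ (fun l hl => ?_)
      by_cases hb : R + 1 < rho F l
      · have h2 : bad l = 1 := by simp only [hbad]; rw [if_pos hb]
        rw [h2]
        have h3 := rho_le (F := F) l
        rw [hl] at h3
        have h4 : (rho F l : ℝ) ≤ M := by exact_mod_cast h3
        have : (0 : ℝ) ≤ R := Nat.cast_nonneg _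
        linarith
      · have h2 : bad l = 0 := by simp only [hbad]; rw [if_neg hb]
        rw [h2]
        have h3 : rho F l ≤ R + 1 := by omega
        have h4 : (rho F l : ℝ) ≤ R + 1 := by exact_mod_cast h3
        linarith
    refine h1.trans ?_
    rw [ex_add, ex_const π hπ1, ex_mul]
    have := mul_le_mul_of_nonneg_left (hexbad M le_rfl) hM0.le
    linarith
  have h1 := (hgrow M le_rfl).trans hup
  have h2 : 4 / 3 * (((R : ℝ) + 1) + M * (2 * β)) < M * κ := by
    have := mul_lt_mul_of_pos_left hκ hM0
    have e : (M : ℝ) * (4 / 3 * (((R : ℝ) + 1) / M + 2 * β)) =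
        4 / 3 * (((R : ℝ) + 1) + M * (2 * β)) := by field_simp
    rwa [e] at this
  have h3 : 3 / 4 * (M * κ) ≤ M * (κ * (1 - 2 * β)) := by
    have : 0 ≤ M * κ := by positivity
    nlinarith
  linarith

end Pool.Agent.LLog
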