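import Pool.Agent.LLog.A5
import Pool.Agent.LLog.A6

open Finset Module

namespace Pool.Agent.LLog

private theorem A7_num1 {K u M η : ℝ} (hK : 30000 ≤ K) (hu : u = 1 / K) (hη : η = u ^ 6)
    (hM0 : 0 ≤ M) (hM : M ≤ K) :
    8 * (M + 1) * (21 * K ^ 2 * η ^ 4 * M ^ 2 + 4 * K ^ 2 * η * M) ≤ 41 * u ^ 2 := by
  have hK0 : (0:ℝ) < K := by linarith
  have hu0 : 0 < u := by rw [hu]; positivity
  have hKu : K * u = 1 := by rw [hu]; field_simp
  have hu1 : u ≤ 1 / 30000 := by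
    rw [hu]
    exact one_div_le_one_div_of_le (by norm_num) hK
  have hη0 : 0 < η := by rw [hη]; positivity
  have e1 : 21 * K ^ 2 * η ^ 4 * M ^ 2 ≤ 21 * K ^ 2 * η ^ 4 * K ^ 2 := by
    have : M ^ 2 ≤ K ^ 2 := pow_le_pow_left₀ hM0 hM 2
    exact mul_le_mul_of_nonneg_left this (by positivity)
  have e2 : 4 * K ^ 2 * η * M ≤ 4 * K ^ 2 * η * K :=
    mul_le_mul_of_nonneg_left hM (by positivity)
  have e3 : 21 * K ^ 2 * η ^ 4 * K ^ 2 = 21 * u ^ 20 := by
    have : 21 * K ^ 2 * η ^ 4 * K ^ 2 = 21 * (K * u) ^ 4 * u ^ 20 := by rw [hη]; ring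
    rw [this, hKu]; ring
  have e4 : 4 * K ^ 2 * η * K = 4 * u ^ 3 := by
    have : 4 * K ^ 2 * η * K = 4 * (K * u) ^ 3 * u ^ 3 := by rw [hη]; ring
    rw [this, hKu]; ring
  have e5 : u ^ 20 ≤ u ^ 3 * (1 / 30000) := by
    have h1 : u ^ 17 ≤ 1 / 30000 := by
      have : u ^ 17 ≤ u ^ 1 :=
        pow_le_pow_of_le_one hu0.le (by linarith) (by norm_num)
      linarith
    calc u ^ 20 = u ^ 3 * u ^ 17 := by ring
      _ ≤ _ := mul_le_mul_of_nonneg_left h1 (by positivity)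
  have e6 : 21 * K ^ 2 * η ^ 4 * M ^ 2 + 4 * K ^ 2 * η * M ≤ 5 * u ^ 3 := by
    have hu3 : 0 < u ^ 3 := by positivity
    linarith
  have e7 : 0 ≤ 21 * K ^ 2 * η ^ 4 * M ^ 2 + 4 * K ^ 2 * η * M := by positivity
  have e8 : 8 * (M + 1) ≤ 8 * (K + 1) := by linarith
  calc 8 * (M + 1) * (21 * K ^ 2 * η ^ 4 * M ^ 2 + 4 * K ^ 2 * η * M)
      ≤ 8 * (K + 1) * (5 * u ^ 3) := mul_le_mul e8 e6 e7 (by positivity)
    _ = 40 * (K * u) * u ^ 2 + 40 * u * u ^ 2 := by ring
    _ ≤ 41 * u ^ 2 := by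
        rw [hKu]
        have hu2 : 0 < u ^ 2 := by positivity
        nlinarith

open Classical in
/-- Approximate nonnegative eigenvectors live on small subspaces. -/
theorem eig_sub {F V : Type} [Field F] [AddCommGroup V] [Module F V] [Fintype V]
    (γ b : V → ℝ) (y K B κ : ℝ) (R : ℕ)
    (gnn : ∀ z, 0 ≤ γ z) (gev : ∀ z, γ (-z) = γ z) (bpos : ∀ s, 0 < b s)
    (hy : 0 < y) (hK : 30000 ≤ K) (hκ : 1 ≤ κ * K) (hκ1 : κ ≤ 1)
    (hR : 65 * ((R : ℝ) + 1) ≤ κ * K)
    (hlog : ∀ s, |Real.log (b s)| ≤ K)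
    (hB : ∑ s, b s ≤ B) (hT : 512 * B ^ 2 ≤ 2 ^ R * ∑ s, b s ^ 2)
    (h1 : ∑ s, (cv γ b s - y * b s) ^ 2 ≤ (1 / K) ^ 96 * y ^ 2 * ∑ s, b s ^ 2)
    (h2 : ∑ s, (cv γ (cv γ b) s - y * cv γ b s) ^ 2 ≤ (1 / K) ^ 96 * y ^ 4 * ∑ s, b s ^ 2) :
    ∃ H : Submodule F V, finrank F H ≤ R + 1 ∧
      y * (1 - κ) ≤ ∑ z, if z ∈ H then γ z else 0 := by
  have hK0 : (0:ℝ) < K := by linarith
  obtain ⟨u, hu⟩ : ∃ u : ℝ, u = 1 / K := ⟨_, rfl⟩
  have hu0 : 0 < u := by rw [hu]; positivity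
  have hKu : K * u = 1 := by rw [hu]; field_simp
  have hu1 : u ≤ 1 / 30000 := by
    rw [hu]
    exact one_div_le_one_div_of_le (by norm_num) hK
  have hκu : u ≤ κ := by
    have : κ * K * u = κ := by rw [mul_assoc, hKu, mul_one]
    nlinarith
  have hκ0 : 0 < κ := lt_of_lt_of_le hu0 hκu
  obtain ⟨η, hη⟩ : ∃ η : ℝ, η = u ^ 6 := ⟨_, rfl⟩
  have hη0 : 0 < η := by rw [hη]; positivity
  have hη1 : η ≤ u := by
    rw [hη]
    calc u ^ 6 ≤ u ^ 1 := pow_le_pow_of_le_one hu0.le (by linarith) (by norm_num)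
      _ = u := pow_one u
  have hη16 : η ^ 16 = (1 / K) ^ 96 := by rw [hη, hu, ← pow_mul]
  have hap : Ap γ b y η K :=
    { gnn := gnn
      gev := gev
      bpos := bpos
      ypos := hy
      eta0 := hη0
      eta1 := by linarith
      X1 := by linarith
      log := hlog
      h1 := by rw [hη16]; exact h1
      h2 := by rw [hη16]; exact h2 }
  obtain ⟨M, hM⟩ : ∃ M : ℕ, M = ⌊K⌋₊ := ⟨_, rfl⟩
  have hMK : (M : ℝ) ≤ K := by rw [hM]; exact Nat.floor_le hK0.le
  have hKM : K < M + 1 := by rw [hM]; exact Nat.lt_floor_add_one K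
  have hM1 : 1 ≤ M := by
    rw [hM, Nat.one_le_floor_iff]
    linarith
  have hη8 : 16 * η ^ 8 ≤ κ / 16 := by
    have h3 : η ^ 8 ≤ u ^ 2 := by
      calc η ^ 8 ≤ u ^ 8 := pow_le_pow_left₀ hη0.le hη1 8
        _ ≤ u ^ 2 := pow_le_pow_of_le_one hu0.le (by linarith) (by norm_num)
    nlinarith
  obtain ⟨s, p1, p2, p3, p4⟩ := hap.good_pt M hM1 B (κ / 16) hB (by positivity) (by linarith) hη8
  have hT0 : 0 < sT b := hap.T_pos
  have hbs : 0 < b s := bpos s
  have hB0 : 0 < B := by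
    by_contra hc
    push Not at hc
    nlinarith
  have hnum := A7_num1 hK hu hη (Nat.cast_nonneg M) hMK
  -- the small set
  obtain ⟨Y, hYdef⟩ : ∃ Y : Finset V, Y = univ.filter (fun v => lb b s - 1 ≤ lb b (s + v)) :=
    ⟨_, rfl⟩
  have hYmem : ∀ v, v ∈ Y ↔ lb b s - 1 ≤ lb b (s + v) := by
    intro v
    rw [hYdef]
    simp
  have hsum : ∑ v, b (s + v) ^ 2 = sT b := by
    unfold sT
    exact Equiv.sum_comp (Equiv.addLeft s) (fun v => b v ^ 2)
  have hYcard : (#Y : ℝ) * b s ^ 2 ≤ 8 * sT b := by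
    have h3 : ∀ v ∈ Y, b s ^ 2 ≤ 8 * b (s + v) ^ 2 := by
      intro v hv
      rw [hYmem] at hv
      have h4 : b s ≤ Real.exp 1 * b (s + v) := by
        have h5 : Real.log (b s) ≤ 1 + Real.log (b (s + v)) := by
          unfold lb at hv
          linarith
        have h6 : Real.exp (Real.log (b s)) ≤ Real.exp (1 + Real.log (b (s + v))) :=
          Real.exp_le_exp.mpr h5
        rw [Real.exp_log hbs, Real.exp_add, Real.exp_log (bpos _)] at h6
        exact h6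
      have he : Real.exp 1 ^ 2 ≤ 8 := by
        have := Real.exp_one_lt_d9
        have h0 := Real.exp_pos 1
        nlinarith
      calc b s ^ 2 ≤ (Real.exp 1 * b (s + v)) ^ 2 := pow_le_pow_left₀ hbs.le h4 2
        _ = Real.exp 1 ^ 2 * b (s + v) ^ 2 := by ring
        _ ≤ 8 * b (s + v) ^ 2 := mul_le_mul_of_nonneg_right he (by positivity)
    calc (#Y : ℝ) * b s ^ 2 = ∑ v ∈ Y, b s ^ 2 := by rw [sum_const, nsmul_eq_mul]
      _ ≤ ∑ v ∈ Y, 8 * b (s + v) ^ 2 := sum_le_sum h3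
      _ ≤ ∑ v, 8 * b (s + v) ^ 2 :=
          sum_le_sum_of_subset_of_nonneg (subset_univ _) (fun v _ _ => by positivity)
      _ = 8 * sT b := by rw [← mul_sum, hsum]
  have hY : #Y ≤ 2 ^ R := by
    have h3 : (#Y : ℝ) ≤ 2 ^ R := by
      have h4 : sT b ^ 2 ≤ 64 * B ^ 2 * b s ^ 2 := by
        calc sT b ^ 2 ≤ (8 * B * b s) ^ 2 := pow_le_pow_left₀ hT0.le p3 2
          _ = _ := by ring
      have h5 : (#Y : ℝ) * sT b ^ 2 ≤ 512 * B ^ 2 * sT b := by
        calc (#Y : ℝ) * sT b ^ 2 ≤ (#Y : ℝ) * (64 * B ^ 2 * b s ^ 2) :=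
              mul_le_mul_of_nonneg_left h4 (Nat.cast_nonneg _)
          _ = 64 * B ^ 2 * ((#Y : ℝ) * b s ^ 2) := by ring
          _ ≤ 64 * B ^ 2 * (8 * sT b) := mul_le_mul_of_nonneg_left hYcard (by positivity)
          _ = _ := by ring
      have h6 : (#Y : ℝ) * sT b ^ 2 ≤ 2 ^ R * sT b * sT b :=
        h5.trans (mul_le_mul_of_nonneg_right hT hT0.le)
      have h7 : 0 < sT b ^ 2 := by positivity
      have h8 : (#Y : ℝ) * sT b ^ 2 ≤ 2 ^ R * sT b ^ 2 := by
        calc (#Y : ℝ) * sT b ^ 2 ≤ 2 ^ R * sT b * sT b := h6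
          _ = _ := by ring
      exact le_of_mul_le_mul_right h8 h7
    exact_mod_cast h3
  -- staying in `Y`
  have hstay : ∀ l ≤ M, ∑ v, (if v ∈ Y then 0 else pw (kr γ b s) l v) ≤ 41 * u ^ 2 := by
    intro l hl
    refine le_trans (sum_le_sum ?_) ((p1 l hl).trans hnum)
    intro v _
    have hpw : 0 ≤ pw (kr γ b s) l v := pw_nonneg (fun z => hap.kr_nonneg s z) l v
    split_ifs with hv
    · exact mul_nonneg hpw (abs_nonneg _)
    · rw [hYmem, not_le] at hv
      have : 1 ≤ |lb b (s + v) - lb b s| := by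
        rw [abs_sub_comm]
        exact le_trans (by linarith) (le_abs_self _)
      exact le_mul_of_one_le_right hpw this
  have hu2 : u ^ 2 ≤ κ / 30000 := by
    nlinarith
  have hMpos : (0:ℝ) < M := by exact_mod_cast hM1
  have hκ' : 4 / 3 * (((R : ℝ) + 1) / M + 2 * (41 * u ^ 2)) < κ / 16 := by
    have h3 : ((R : ℝ) + 1) / M ≤ κ / 60 := by
      rw [div_le_div_iff₀ hMpos (by norm_num)]
      have h4 : 65 * ((R : ℝ) + 1) ≤ κ * (M + 1) := by
        calc 65 * ((R : ℝ) + 1) ≤ κ * K := hR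
          _ ≤ κ * (M + 1) := mul_le_mul_of_nonneg_left hKM.le hκ0.le
      have h5 : (30000:ℝ) < M + 1 := by linarith
      have h6 : κ * 29999 ≤ κ * M := mul_le_mul_of_nonneg_left (by linarith) hκ0.le
      nlinarith
    linarith
  obtain ⟨H, hH1, hH2⟩ := sampling (F := F) (kr γ b s) (fun z => hap.kr_nonneg s z)
    (hap.sum_kr s) Y R M hM1 hY (41 * u ^ 2) (κ / 16) (by nlinarith) hstay hκ'
  refine ⟨H, hH1, ?_⟩
  have ha : 0 < cv γ b s := hap.cv_pos s
  -- pointwise bound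
  have hpt : ∀ z, cv γ b s / b s * (kr γ b s z - kr γ b s z * |lb b (s + z) - lb b s|) ≤ γ z := by
    intro z
    have hbz : 0 < b (s + z) := bpos _
    have h3 : γ z = cv γ b s / b s * (kr γ b s z * Real.exp (lb b s - lb b (s + z))) := by
      unfold kr lb
      rw [Real.exp_sub, Real.exp_log hbs, Real.exp_log hbz]
      field_simp
    have h4 : 1 - |lb b (s + z) - lb b s| ≤ Real.exp (lb b s - lb b (s + z)) := by
      have h5 := Real.add_one_le_exp (lb b s - lb b (s + z))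
      have h6 := le_abs_self (lb b (s + z) - lb b s)
      linarith
    have h7 : kr γ b s z - kr γ b s z * |lb b (s + z) - lb b s| ≤
        kr γ b s z * Real.exp (lb b s - lb b (s + z)) := by
      have := mul_le_mul_of_nonneg_left h4 (hap.kr_nonneg s z)
      linarith
    rw [h3]
    exact mul_le_mul_of_nonneg_left h7 (by positivity)
  have habs : ∑ z, kr γ b s z * |lb b (s + z) - lb b s| ≤ κ / 16 := by
    have h3 : ∀ z, kr γ b s z * |lb b (s + z) - lb b s| ≤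
        κ / 32 * kr γ b s z + 8 / κ * (kr γ b s z * (lb b (s + z) - lb b s) ^ 2) := by
      intro z
      have h4 : |lb b (s + z) - lb b s| ≤ κ / 32 + 8 / κ * (lb b (s + z) - lb b s) ^ 2 := by
        rw [← sq_abs (lb b (s + z) - lb b s)]
        obtain ⟨t, ht⟩ : ∃ t : ℝ, t = |lb b (s + z) - lb b s| := ⟨_, rfl⟩
        rw [← ht]
        have h5 : κ / 32 + 8 / κ * t ^ 2 - t = (κ - 16 * t) ^ 2 / (32 * κ) := by
          field_simp
          ring
        have h6 : 0 ≤ (κ - 16 * t) ^ 2 / (32 * κ) := by positivity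
        linarith
      calc kr γ b s z * |lb b (s + z) - lb b s|
          ≤ kr γ b s z * (κ / 32 + 8 / κ * (lb b (s + z) - lb b s) ^ 2) :=
            mul_le_mul_of_nonneg_left h4 (hap.kr_nonneg s z)
        _ = _ := by ring
    have h5 : ∑ z, kr γ b s z * |lb b (s + z) - lb b s| ≤
        κ / 32 * 1 + 8 / κ * (128 * K ^ 3 * η ^ 2) := by
      calc ∑ z, kr γ b s z * |lb b (s + z) - lb b s|
          ≤ ∑ z, (κ / 32 * kr γ b s z +
              8 / κ * (kr γ b s z * (lb b (s + z) - lb b s) ^ 2)) :=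
            sum_le_sum fun z _ => h3 z
        _ = κ / 32 * ∑ z, kr γ b s z +
              8 / κ * ∑ z, kr γ b s z * (lb b (s + z) - lb b s) ^ 2 := by
            rw [sum_add_distrib, mul_sum, mul_sum]
        _ ≤ _ := by
            rw [hap.sum_kr s]
            have := mul_le_mul_of_nonneg_left p2 (show 0 ≤ 8 / κ by positivity)
            linarith
    have h6 : K ^ 3 * η ^ 2 = u ^ 9 := by
      have : K ^ 3 * η ^ 2 = (K * u) ^ 3 * u ^ 9 := by rw [hη]; ring
      rw [this, hKu]; ring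
    have h7 : 8 / κ * (128 * K ^ 3 * η ^ 2) ≤ κ / 32 := by
      rw [mul_assoc 128, h6, div_mul_eq_mul_div, div_le_iff₀ hκ0]
      have h8 : u ^ 9 ≤ κ * κ * (1 / 30000) ^ 7 := by
        calc u ^ 9 = u * u * u ^ 7 := by ring
          _ ≤ κ * κ * (1 / 30000) ^ 7 := by
              apply mul_le_mul (mul_le_mul hκu hκu hu0.le hκ0.le)
                (pow_le_pow_left₀ hu0.le hu1 7) (by positivity) (by positivity)
      have h9 : 0 < κ * κ := by positivity
      norm_num at h8 ⊢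
      nlinarith
    linarith
  have hfin : cv γ b s / b s * (1 - κ / 16 - κ / 16) ≤ ∑ z, if z ∈ H then γ z else 0 := by
    have h3 : ∀ z, cv γ b s / b s * ((if z ∈ H then kr γ b s z else 0) -
        kr γ b s z * |lb b (s + z) - lb b s|) ≤ if z ∈ H then γ z else 0 := by
      intro z
      split_ifs with hz
      · exact hpt z
      · have h4 : 0 ≤ cv γ b s / b s := by positivity
        have h5 : 0 ≤ kr γ b s z * |lb b (s + z) - lb b s| :=
          mul_nonneg (hap.kr_nonneg s z) (abs_nonneg _)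
        have := mul_nonneg h4 h5
        linarith
    calc cv γ b s / b s * (1 - κ / 16 - κ / 16)
        ≤ cv γ b s / b s * ((∑ z, if z ∈ H then kr γ b s z else 0) -
            ∑ z, kr γ b s z * |lb b (s + z) - lb b s|) := by
          apply mul_le_mul_of_nonneg_left _ (by positivity)
          linarith
      _ = ∑ z, cv γ b s / b s * ((if z ∈ H then kr γ b s z else 0) -
            kr γ b s z * |lb b (s + z) - lb b s|) := by
          rw [← sum_sub_distrib, mul_sum]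
      _ ≤ _ := sum_le_sum fun z _ => h3 z
  refine le_trans ?_ hfin
  have h3 : y * (1 - κ / 16) ≤ cv γ b s / b s := by
    rw [le_div_iff₀ hbs]
    exact p4
  have h4 : 0 ≤ 1 - κ / 16 - κ / 16 := by linarith
  calc y * (1 - κ) ≤ y * (1 - κ / 16) * (1 - κ / 16 - κ / 16) := by
        have : 0 ≤ y * κ * (κ + 80 + 24) := by positivity
        nlinarith [mul_nonneg hy.le (mul_nonneg hκ0.le hκ0.le), mul_nonneg hy.le hκ0.le]
    _ ≤ _ := mul_le_mul_of_nonneg_right h3 h4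

end Pool.Agent.LLog
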