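import Pool.Agent.LLog.Defs

open Finset Module

namespace Pool.Agent.LLog

open Pool.Agent.GapCodes

attribute [local instance] fintypeDual

variable {F : Type} [Field F] [Fintype F] {V : Type} [AddCommGroup V] [Module F V] [Fintype V]
variable {ψ : AddChar F ℂ} {α β : V → ℝ} {f g : Module.Dual F V → ℝ}

theorem Rep.at_zero (h : Rep ψ α f) : f 0 = ∑ c, α c := by
  have h1 := h 0
  simp only [ch_at_zero, mul_one] at h1
  exact_mod_cast h1

private theorem b1_conj (h : Rep ψ α f) (x : Module.Dual F V) :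
    ((f x : ℝ) : ℂ) = ∑ c, (α c : ℂ) * ch ψ (-c) x := by
  have h1 := congrArg (starRingEnd ℂ) (h x)
  rw [Complex.conj_ofReal, map_sum] at h1
  rw [h1]
  apply Finset.sum_congr rfl
  intro c _
  rw [map_mul, Complex.conj_ofReal, ch_neg]

private theorem b1_coef (hψ : ψ ≠ 0) (h : Rep ψ α f) (c : V) :
    ∑ x, ((f x : ℝ) : ℂ) * ch ψ (-c) x = (Fintype.card V : ℂ) * α c := by
  classical
  simp_rw [h _, Finset.sum_mul]
  rw [Finset.sum_comm]
  have h1 : ∀ c' : V, ∑ x : Module.Dual F V, (α c' : ℂ) * ch ψ c' x * ch ψ (-c) x =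
      if c' = c then (Fintype.card V : ℂ) * α c else 0 := by
    intro c'
    simp_rw [mul_assoc, ← ch_add]
    rw [← Finset.mul_sum, sum_ch ψ hψ]
    by_cases hc : c' = c
    · subst hc; simp [mul_comm]
    · rw [if_neg, if_neg hc, mul_zero]
      intro h0
      apply hc
      rwa [← sub_eq_add_neg, sub_eq_zero] at h0
  simp_rw [h1]
  simp

private theorem b1_coef' (hψ : ψ ≠ 0) (h : Rep ψ α f) (c : V) :
    ∑ x, ((f x : ℝ) : ℂ) * ch ψ c x = (Fintype.card V : ℂ) * α c := by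
  have h1 := congrArg (starRingEnd ℂ) (b1_coef hψ h c)
  rw [map_sum, map_mul, Complex.conj_ofReal, Complex.conj_natCast] at h1
  rw [← h1]
  apply Finset.sum_congr rfl
  intro x _
  rw [map_mul, Complex.conj_ofReal, ← ch_neg, neg_neg]

theorem Rep.mean (hψ : ψ ≠ 0) (h : Rep ψ α f) : (Fintype.card V : ℝ) * α 0 = ∑ x, f x := by
  have h1 := b1_coef' hψ h 0
  simp only [ch_zero, mul_one] at h1
  exact_mod_cast h1.symm

theorem Rep.even (hψ : ψ ≠ 0) (h : Rep ψ α f) (c : V) : α (-c) = α c := by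
  have h1 := b1_coef hψ h c
  rw [b1_coef' hψ h (-c)] at h1
  have h2 : (Fintype.card V : ℂ) ≠ 0 := by
    have := (Fintype.card_pos : 0 < Fintype.card V)
    exact_mod_cast this.ne'
  have h3 := mul_left_cancel₀ h2 h1
  exact_mod_cast h3

theorem Rep.parseval (hψ : ψ ≠ 0) (h : Rep ψ α f) :
    (Fintype.card V : ℝ) * ∑ c, α c ^ 2 = ∑ x, f x ^ 2 := by
  have h1 : ∑ x, ((f x : ℝ) : ℂ) ^ 2 = ∑ c, (α c : ℂ) * ∑ x, ((f x : ℝ) : ℂ) * ch ψ c x := by
    simp_rw [Finset.mul_sum]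
    rw [Finset.sum_comm]
    apply Finset.sum_congr rfl
    intro x _
    rw [sq]
    nth_rewrite 2 [h x]
    rw [Finset.mul_sum]
    apply Finset.sum_congr rfl
    intro c _
    ring
  simp_rw [b1_coef' hψ h] at h1
  rw [Finset.mul_sum]
  have h2 : ∑ x, ((f x : ℝ) : ℂ) ^ 2 = ((∑ x, f x ^ 2 : ℝ) : ℂ) := by push_cast; rfl
  rw [h2] at h1
  have h3 : ∑ c, (α c : ℂ) * ((Fintype.card V : ℂ) * α c) =
      ((∑ c, (Fintype.card V : ℝ) * α c ^ 2 : ℝ) : ℂ) := by
    push_cast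
    apply Finset.sum_congr rfl
    intro c _
    ring
  rw [h3] at h1
  exact_mod_cast h1.symm

theorem Rep.add (h : Rep ψ α f) (h' : Rep ψ β g) :
    Rep ψ (fun c => α c + β c) (fun x => f x + g x) := by
  intro x
  push_cast
  rw [h x, h' x, ← Finset.sum_add_distrib]
  apply Finset.sum_congr rfl
  intro c _
  ring

theorem Rep.sub (h : Rep ψ α f) (h' : Rep ψ β g) :
    Rep ψ (fun c => α c - β c) (fun x => f x - g x) := by
  intro x
  push_cast
  rw [h x, h' x, ← Finset.sum_sub_distrib]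
  apply Finset.sum_congr rfl
  intro c _
  ring

theorem Rep.smul (h : Rep ψ α f) (a : ℝ) : Rep ψ (fun c => a * α c) (fun x => a * f x) := by
  intro x
  push_cast
  rw [h x, Finset.mul_sum]
  apply Finset.sum_congr rfl
  intro c _
  ring

open Classical in
theorem Rep.const (ψ : AddChar F ℂ) (a : ℝ) :
    Rep ψ (fun c : V => if c = 0 then a else 0) (fun _ => a) := by
  intro x
  rw [Finset.sum_eq_single (0 : V)]
  · simp [ch_zero]
  · intro b _ hb
    simp [hb]
  · simp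

private theorem b1_sum_left (hψ : ψ ≠ 0) (x : Module.Dual F V) (hx : x ≠ 0) :
    ∑ c : V, ch ψ c x = 0 := by
  classical
  let Ψ : AddChar V ℂ := ψ.compAddMonoidHom x.toAddMonoidHom
  have hΨ : ∀ c, Ψ c = ch ψ c x := fun c => rfl
  have hne : Ψ ≠ 0 := by
    obtain ⟨a, ha⟩ : ∃ a, ψ a ≠ 1 := by
      by_contra hcon
      push Not at hcon
      exact hψ (by ext a; simpa using hcon a)
    obtain ⟨c, hc⟩ : ∃ c, x c ≠ 0 := by
      by_contra hcon
      push Not at hcon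
      exact hx (LinearMap.ext (by simpa using hcon))
    intro h0
    have h1 : Ψ ((a / x c) • c) = 1 := by rw [h0]; simp
    apply ha
    rw [hΨ] at h1
    unfold ch at h1
    rw [map_smul, smul_eq_mul, div_mul_cancel₀ _ hc] at h1
    exact h1
  have := AddChar.sum_eq_ite Ψ
  rw [if_neg hne] at this
  rw [← this]
  rfl

open Classical in
theorem Rep.delta (hψ : ψ ≠ 0) :
    Rep ψ (fun _ : V => 1 / (Fintype.card V : ℝ)) (fun x => if x = 0 then 1 else 0) := by
  intro x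
  have h2 : (Fintype.card V : ℂ) ≠ 0 := by
    have := (Fintype.card_pos : 0 < Fintype.card V)
    exact_mod_cast this.ne'
  rw [← Finset.mul_sum]
  by_cases hx : x = 0
  · subst hx
    simp only [ch_at_zero, Finset.sum_const, Finset.card_univ, nsmul_eq_mul, mul_one, if_true]
    push_cast
    field_simp
  · rw [b1_sum_left hψ x hx]
    simp [hx]

theorem Rep.mul (hψ : ψ ≠ 0) (h : Rep ψ α f) (h' : Rep ψ β g) :
    Rep ψ (cv α β) (fun x => f x * g x) := by
  intro x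
  push_cast
  rw [b1_conj h x, h' x, Finset.sum_mul_sum]
  unfold cv
  push_cast
  simp_rw [Finset.sum_mul]
  conv_rhs => rw [Finset.sum_comm]
  apply Finset.sum_congr rfl
  intro z _
  rw [← Equiv.sum_comp (Equiv.addRight z)]
  apply Finset.sum_congr rfl
  intro s _
  simp only [Equiv.coe_addRight]
  rw [ch_add]
  have h1 : ch ψ (-z) x * ch ψ z x = 1 := by
    rw [← ch_add, neg_add_cancel, ch_zero]
  linear_combination ((α z : ℂ) * (β (s + z) : ℂ) * ch ψ s x) * h1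

private theorem b1_pd (h : Rep ψ α f) (hα : ∀ c, 0 ≤ α c) :
    Pd ψ (fun x => ((f x : ℝ) : ℂ)) := ⟨α, hα, h⟩

theorem Rep.pow_nonneg (hψ : ψ ≠ 0) (h : Rep ψ α f) (hα : ∀ c, 0 ≤ α c) (n : ℕ) :
    0 ≤ ∑ x, f x ^ n := by
  have h1 := Pd.sum_re_nonneg hψ ((b1_pd h hα).pow n)
  have h2 : ∑ x, ((f x : ℝ) : ℂ) ^ n = ((∑ x, f x ^ n : ℝ) : ℂ) := by push_cast; rfl
  rw [h2, Complex.ofReal_re] at h1
  exact h1

/-- Coefficients of `f (f + a) ^ r`. -/
theorem Rep.exists_prod (hψ : ψ ≠ 0) (h : Rep ψ α f) (hα : ∀ c, 0 ≤ α c) (a : ℝ) (ha : 0 ≤ a)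
    (r : ℕ) : ∃ β : V → ℝ, (∀ c, 0 ≤ β c) ∧ Rep ψ β (fun x => f x * (f x + a) ^ r) := by
  have h1 := (b1_pd h hα).mul (((b1_pd h hα).add (Pd.one.smul ha)).pow r)
  obtain ⟨β, hβ, hr⟩ := h1
  refine ⟨β, hβ, fun x => ?_⟩
  rw [← hr x]
  push_cast
  ring

end Pool.Agent.LLog
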