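import Pool.Agent.LLog.B1

open Finset Module

namespace Pool.Agent.LLog

open Pool.Agent.GapCodes

attribute [local instance] fintypeDual

variable {F : Type} [Field F] [Fintype F] {V : Type} [AddCommGroup V] [Module F V] [Fintype V]
variable {ψ : AddChar F ℂ} {α : V → ℝ} {ν : Module.Dual F V → ℤ} {s J : ℕ}

/-- Passing to a quotient of the coefficient space (restriction to the annihilator). -/
theorem St.quot (hst : St ψ s J α ν) (H : Submodule F V) [Fintype (V ⧸ H)] :
    St ψ s J (aq α H) (nq ν H) := by
  classical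
  refine ⟨?_, ?_, ?_, ?_⟩
  · intro cb
    unfold aq
    apply Finset.sum_nonneg
    intro c _
    split_ifs
    · exact hst.nn c
    · exact le_refl _
  · intro x
    unfold nq
    have h0 := hst.rep (x ∘ₗ H.mkQ)
    refine Eq.trans h0 ?_
    have h1 : ∀ c : V, ch ψ c (x ∘ₗ H.mkQ) = ch ψ (H.mkQ c) x := fun c => rfl
    simp_rw [h1]
    unfold aq
    push_cast
    simp_rw [Finset.sum_mul]
    conv_rhs => rw [Finset.sum_comm]
    apply Finset.sum_congr rfl
    intro c _
    rw [Finset.sum_eq_single (H.mkQ c)]
    · simp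
    · intro b _ hb
      rw [if_neg (Ne.symm hb)]
      simp
    · simp
  · unfold nq
    rw [LinearMap.zero_comp]
    exact hst.zero
  · intro x hx
    unfold nq
    apply hst.le
    intro h0
    apply hx
    ext c
    simpa using LinearMap.congr_fun h0 c

open Classical in
/-- Sums over the dual of the quotient are sums over the annihilator. -/
theorem sum_quot (H : Submodule F V) [Fintype (V ⧸ H)] (f : Module.Dual F V → ℝ) :
    ∑ x : Module.Dual F (V ⧸ H), f (x ∘ₗ H.mkQ) =
      ∑ y ∈ univ.filter (fun y : Module.Dual F V => ∀ c ∈ H, y c = 0), f y := by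
  refine Finset.sum_bij (fun x _ => x ∘ₗ H.mkQ) ?_ ?_ ?_ ?_
  · intro x _
    rw [Finset.mem_filter]
    refine ⟨Finset.mem_univ _, fun c hc => ?_⟩
    rw [LinearMap.comp_apply]
    have h1 : H.mkQ c = 0 := by simpa using hc
    rw [h1, map_zero]
  · intro x _ y _ hxy
    ext c
    simpa using LinearMap.congr_fun hxy c
  · intro y hy
    rw [Finset.mem_filter] at hy
    refine ⟨H.liftQ y (fun c hc => hy.2 c hc), Finset.mem_univ _, ?_⟩
    exact H.liftQ_mkQ y _
  · intro x _
    rfl

/-- Coefficient sums of a quotient. -/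
theorem sg_comap (α : V → ℝ) (H : Submodule F V) [Fintype (V ⧸ H)] (H₁ : Submodule F (V ⧸ H)) :
    sg (aq α H) H₁ = sg α (H₁.comap H.mkQ) ∧
      finrank F (H₁.comap H.mkQ : Submodule F V) = finrank F H + finrank F H₁ := by
  classical
  constructor
  · unfold sg aq
    have h1 : ∀ cb : V ⧸ H, (if cb ∈ H₁ then (∑ c : V, if H.mkQ c = cb then α c else 0) else 0) =
        ∑ c : V, if H.mkQ c = cb then (if H.mkQ c ∈ H₁ then α c else 0) else 0 := by
      intro cb
      by_cases h : cb ∈ H₁
      · rw [if_pos h]
        apply Finset.sum_congr rfl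
        intro c _
        by_cases hc : H.mkQ c = cb
        · rw [if_pos hc, if_pos hc, if_pos (by rw [hc]; exact h)]
        · rw [if_neg hc, if_neg hc]
      · rw [if_neg h]
        symm
        apply Finset.sum_eq_zero
        intro c _
        by_cases hc : H.mkQ c = cb
        · rw [if_pos hc, if_neg (by rw [hc]; exact h)]
        · rw [if_neg hc]
    refine (Finset.sum_congr rfl (fun cb _ => h1 cb)).trans ?_
    rw [Finset.sum_comm]
    apply Finset.sum_congr rfl
    intro c _
    rw [Finset.sum_eq_single (H.mkQ c)]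
    · rw [if_pos rfl]
      rfl
    · intro b _ hb
      rw [if_neg (Ne.symm hb)]
    · simp
  · have hle : H ≤ H₁.comap H.mkQ := by
      intro c hc
      rw [Submodule.mem_comap]
      have h1 : H.mkQ c = 0 := by simpa using hc
      rw [h1]
      exact H₁.zero_mem
    have h1 := LinearMap.finrank_range_add_finrank_ker (H.mkQ.domRestrict (H₁.comap H.mkQ))
    have h2 : LinearMap.range (H.mkQ.domRestrict (H₁.comap H.mkQ)) = H₁ := by
      ext cb
      rw [LinearMap.mem_range]
      constructor
      · rintro ⟨c, rfl⟩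
        exact c.2
      · intro hcb
        obtain ⟨c, hc⟩ := H.mkQ_surjective cb
        refine ⟨⟨c, ?_⟩, hc⟩
        rw [Submodule.mem_comap, hc]
        exact hcb
    have h3 : LinearMap.ker (H.mkQ.domRestrict (H₁.comap H.mkQ)) =
        H.comap (H₁.comap H.mkQ).subtype := by
      ext c
      rw [LinearMap.mem_ker, Submodule.mem_comap]
      simp
    rw [h2, h3, (Submodule.comapSubtypeEquivOfLe hle).finrank_eq] at h1
    omega

end Pool.Agent.LLog
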