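import Mathlib
import Pool.Agent.helper17.Gap5
import Pool.Agent.Strip.Gries

open Finset Module

namespace Pool.Agent.LLog

section abs

variable {A : Type} [AddCommGroup A] [Fintype A]

/-- Convolution with an even kernel. -/
def cv (γ b : A → ℝ) (s : A) : ℝ := ∑ z, γ z * b (s + z)

/-- Sum of squares. -/
def sT (b : A → ℝ) : ℝ := ∑ s, b s ^ 2

/-- First normalisation. -/
def sZ1 (γ b : A → ℝ) : ℝ := ∑ s, cv γ b s * b s

/-- Second normalisation. -/
def sZ2 (γ b : A → ℝ) : ℝ := ∑ s, cv γ b s ^ 2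

/-- Transition kernel. -/
noncomputable def kr (γ b : A → ℝ) (s z : A) : ℝ := γ z * b (s + z) / cv γ b s

/-- Stationary distribution. -/
noncomputable def lam (γ b : A → ℝ) (s : A) : ℝ := b s * cv γ b s / sZ1 γ b

/-- Logarithm of `b`. -/
noncomputable def lb (b : A → ℝ) (s : A) : ℝ := Real.log (b s)

/-- Mixed second difference of `log b`. -/
noncomputable def mx (b : A → ℝ) (s z w : A) : ℝ :=
  lb b s + lb b (s + z + w) - lb b (s + z) - lb b (s + w)

/-- Defect of harmonicity of `log b` (not normalised). -/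
noncomputable def hm (γ b : A → ℝ) (s : A) : ℝ :=
  ∑ z, γ z * b (s + z) * (lb b (s + z) - lb b s)

open Classical in
/-- Convolution powers. -/
noncomputable def pw (π : A → ℝ) : ℕ → A → ℝ
  | 0 => fun v => if v = 0 then 1 else 0
  | n + 1 => fun v => ∑ z, π z * pw π n (v - z)

/-- Approximate nonnegative eigenvectors. -/
structure Ap (γ b : A → ℝ) (y η X : ℝ) : Prop where
  gnn : ∀ z, 0 ≤ γ z
  gev : ∀ z, γ (-z) = γ z
  bpos : ∀ s, 0 < b s
  ypos : 0 < y
  eta0 : 0 < η
  eta1 : η ≤ 1 / 2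
  X1 : 1 ≤ X
  log : ∀ s, |Real.log (b s)| ≤ X
  h1 : ∑ s, (cv γ b s - y * b s) ^ 2 ≤ η ^ 16 * y ^ 2 * sT b
  h2 : ∑ s, (cv γ (cv γ b) s - y * cv γ b s) ^ 2 ≤ η ^ 16 * y ^ 4 * sT b

end abs

section fourier

open Pool.Agent.GapCodes

attribute [local instance] fintypeDual

variable {F : Type} [Field F] [Fintype F] {V : Type} [AddCommGroup V] [Module F V] [Fintype V]

/-- `α` is the family of Fourier coefficients of `f`. -/
def Rep (ψ : AddChar F ℂ) (α : V → ℝ) (f : Module.Dual F V → ℝ) : Prop :=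
  ∀ x, ((f x : ℝ) : ℂ) = ∑ c, (α c : ℂ) * ch ψ c x

/-- Integer valued functions with nonnegative Fourier coefficients, at most `s` off `0` and at most
`J` at `0`. -/
structure St (ψ : AddChar F ℂ) (s J : ℕ) (α : V → ℝ) (ν : Module.Dual F V → ℤ) : Prop where
  nn : ∀ c, 0 ≤ α c
  rep : Rep ψ α (fun x => (ν x : ℝ))
  zero : ν 0 ≤ J
  le : ∀ x, x ≠ 0 → ν x ≤ s

end fourier

/-- The exponents used in the level argument. -/
def rr (s h t : ℕ) : ℕ := 220 * s * h + (2 * t + 1) * (104 * s * h)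

/-- Cost of raising the mean by one. -/
def Qc (s h u x : ℕ) : ℕ := 900 * s * h * (u + 1) + x

end Pool.Agent.LLog
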